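import Mathlib
import Pool.Agent.Helper543.Melchior

/-! Consequences of Melchior's inequality: counting pairs of points on rich lines. -/

set_option autoImplicit false

namespace Pool.Agent.X65.Mel

open Finset Pool.Agent.Helper543.Melchior
open scoped Classical

/-- every pair of points is on exactly one line -/
theorem sum_pairs (S : Finset Pt) :
    ∑ M ∈ lines S, M.card * (M.card - 1) = S.card * (S.card - 1) := by
  have h1 : S.offDiag.card = ∑ M ∈ lines S, (S.offDiag.filter
      (fun ab => lineOf S ab.1 ab.2 = M)).card := by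
    apply card_eq_sum_card_fiberwise
    intro ab hab
    have h := mem_offDiag.mp hab
    exact lineOf_mem_lines h.1 h.2.1 h.2.2
  rw [offDiag_card] at h1
  have h2 : S.card * S.card - S.card = S.card * (S.card - 1) := by
    rw [Nat.mul_sub_one]
  rw [← h2, h1]
  apply sum_congr rfl
  intro M hM
  have h3 : S.offDiag.filter (fun ab => lineOf S ab.1 ab.2 = M) = M.offDiag := by
    ext ⟨a, b⟩
    simp only [mem_filter, mem_offDiag]
    constructor
    · rintro ⟨⟨ha, hb, hab⟩, rfl⟩
      exact ⟨mem_lineOf.2 ⟨ha, cr_self_left _ _⟩, mem_lineOf.2 ⟨hb, cr_self_right _ _⟩, hab⟩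
    · rintro ⟨ha, hb, hab⟩
      exact ⟨⟨line_subset hM ha, line_subset hM hb, hab⟩, (eq_lineOf hM ha hb hab).symm⟩
  rw [h3, offDiag_card, Nat.mul_sub_one]

theorem two_le_card {S M : Finset Pt} (hM : M ∈ lines S) : 2 ≤ M.card := by
  obtain ⟨a, ha, b, hb, hab⟩ := exists_two hM
  exact one_lt_card.mpr ⟨a, ha, b, hb, hab⟩

/-- At most `(C(n,2) - 3) / 7` lines contain four or more of the points. -/
theorem rich_bound {S : Finset Pt} (hS : ∃ a ∈ S, ∃ b ∈ S, ∃ c ∈ S, cr a b c ≠ 0) :
    14 * ((lines S).filter (fun M => 4 ≤ M.card)).card + 6 ≤ S.card * (S.card - 1) := by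
  have h1 := melchior hS
  have h2 := sum_pairs S
  have h3 : ∑ M ∈ lines S, (6 + 14 * (if 4 ≤ M.card then 1 else 0)) ≤
      ∑ M ∈ lines S, (M.card * (M.card - 1) + 2 * M.card) := by
    apply sum_le_sum
    intro M hM
    have h4 := two_le_card hM
    obtain ⟨k, hk⟩ : ∃ k, M.card = k + 2 := ⟨M.card - 2, by omega⟩
    rw [hk]
    have h5 : (k + 2) * (k + 2 - 1) = k * k + 3 * k + 2 := by
      have : k + 2 - 1 = k + 1 := by omega
      rw [this]; ring
    rw [h5]
    split_ifs with h
    · have : 2 ≤ k := by omega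
      nlinarith
    · nlinarith
  rw [sum_add_distrib, sum_add_distrib, h2, sum_const, ← mul_sum, ← mul_sum, ← card_filter,
    smul_eq_mul] at h3
  omega

/-- a straight line of the plane -/
def IsLine (L : AffineSubspace ℝ (ℝ × ℝ)) : Prop := Module.finrank ℝ L.direction = 1

theorem mem_iff_cr {L : AffineSubspace ℝ (ℝ × ℝ)} (hL : IsLine L) {a b : Pt} (ha : a ∈ L)
    (hb : b ∈ L) (hab : a ≠ b) (x : Pt) : x ∈ L ↔ cr a b x = 0 := by
  constructor
  · intro hx
    have hv : b -ᵥ a ∈ L.direction := AffineSubspace.vsub_mem_direction hb ha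
    have hw : x -ᵥ a ∈ L.direction := AffineSubspace.vsub_mem_direction hx ha
    have hv0 : (⟨b -ᵥ a, hv⟩ : L.direction) ≠ 0 := by
      intro h
      apply hab
      have := congrArg Subtype.val h
      simp only [vsub_eq_sub, Submodule.coe_zero] at this
      exact (sub_eq_zero.mp this).symm
    obtain ⟨c, hc⟩ := (finrank_eq_one_iff_of_nonzero' _ hv0).mp hL ⟨x -ᵥ a, hw⟩
    have hc' := congrArg Subtype.val hc
    simp only [SetLike.mk_smul_mk, vsub_eq_sub] at hc'
    have h1 := congrArg Prod.fst hc'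
    have h2 := congrArg Prod.snd hc'
    simp only [Prod.smul_fst, Prod.smul_snd, Prod.fst_sub, Prod.snd_sub, smul_eq_mul] at h1 h2
    simp only [cr]
    rw [← h1, ← h2]; ring
  · intro hx
    obtain ⟨s, h1, h2⟩ := exists_param hab hx
    have h3 : x = s • (b -ᵥ a) +ᵥ a := by
      ext
      · simp only [vsub_eq_sub, vadd_eq_add, Prod.fst_add, Prod.smul_fst, Prod.fst_sub,
          smul_eq_mul]
        linarith
      · simp only [vsub_eq_sub, vadd_eq_add, Prod.snd_add, Prod.smul_snd, Prod.snd_sub,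
          smul_eq_mul]
        linarith
    rw [h3]
    exact L.smul_vsub_vadd_mem s hb ha ha

/-- the points of `P` on the line `L` -/
noncomputable def trace (P : Finset Pt) (L : AffineSubspace ℝ (ℝ × ℝ)) : Finset Pt :=
  P.filter (fun x => x ∈ L)

theorem trace_eq {P : Finset Pt} {L : AffineSubspace ℝ (ℝ × ℝ)} (hL : IsLine L) {a b : Pt}
    (ha : a ∈ L) (hb : b ∈ L) (hab : a ≠ b) : trace P L = lineOf P a b := by
  ext x
  rw [trace, mem_filter, mem_lineOf, mem_iff_cr hL ha hb hab]

theorem trace_mem {P : Finset Pt} {L : AffineSubspace ℝ (ℝ × ℝ)} (hL : IsLine L)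
    (h2 : 2 ≤ (trace P L).card) : trace P L ∈ lines P := by
  obtain ⟨a, ha, b, hb, hab⟩ := one_lt_card.mp h2
  obtain ⟨ha1, ha2⟩ := mem_filter.mp ha
  obtain ⟨hb1, hb2⟩ := mem_filter.mp hb
  rw [trace_eq hL ha2 hb2 hab]
  exact lineOf_mem_lines ha1 hb1 hab

theorem trace_inj {P : Finset Pt} {L L' : AffineSubspace ℝ (ℝ × ℝ)} (hL : IsLine L)
    (hL' : IsLine L') (h2 : 2 ≤ (trace P L).card) (h : trace P L = trace P L') : L = L' := by
  obtain ⟨a, ha, b, hb, hab⟩ := one_lt_card.mp h2
  have ha' := ha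
  have hb' := hb
  rw [h] at ha' hb'
  ext x
  rw [mem_iff_cr hL (mem_filter.mp ha).2 (mem_filter.mp hb).2 hab,
    mem_iff_cr hL' (mem_filter.mp ha').2 (mem_filter.mp hb').2 hab]

theorem ncard_trace (P : Finset Pt) (L : AffineSubspace ℝ (ℝ × ℝ)) :
    ((P : Set Pt) ∩ (L : Set Pt)).ncard = (trace P L).card := by
  rw [← Set.ncard_coe_finset]
  congr 1
  ext x
  simp [trace]

end Pool.Agent.X65.Mel
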