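import Mathlib
import Pool.Agent.X65.Mel

/-! At least `2n - 4` connecting lines, if no `n - 1` of the `n ≥ 10` points are collinear. -/

set_option autoImplicit false

namespace Pool.Agent.X65.KM

open Finset Pool.Agent.Helper543.Melchior Pool.Agent.X65.Mel
open scoped Classical

/-- Sets of size at least `m` with pairwise intersections of size at most one. -/
theorem card_biUnion_ge {α β : Type} [DecidableEq α] [DecidableEq β] (O : Finset α) (X : α → Finset β) (m : ℕ)
    (h1 : ∀ o ∈ O, m ≤ (X o).card)
    (h2 : ∀ o ∈ O, ∀ o' ∈ O, o ≠ o' → (X o ∩ X o').card ≤ 1) :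
    2 * (m * O.card) ≤ 2 * (O.biUnion X).card + O.card * (O.card - 1) := by
  induction O using Finset.induction_on with
  | empty => simp
  | insert a O ha ih =>
    have ih' := ih (fun o ho => h1 o (mem_insert_of_mem ho))
      (fun o ho o' ho' h => h2 o (mem_insert_of_mem ho) o' (mem_insert_of_mem ho') h)
    rw [biUnion_insert, card_insert_of_notMem ha]
    have h3 := card_union_add_card_inter (X a) (O.biUnion X)
    have h4 : (X a ∩ O.biUnion X).card ≤ O.card := by
      have : X a ∩ O.biUnion X = O.biUnion (fun o => X a ∩ X o) := by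
        rw [inter_biUnion]
      rw [this]
      calc (O.biUnion (fun o => X a ∩ X o)).card ≤ ∑ o ∈ O, (X a ∩ X o).card := card_biUnion_le
        _ ≤ ∑ o ∈ O, 1 := sum_le_sum (fun o ho => h2 a (mem_insert_self _ _) o
            (mem_insert_of_mem ho) (fun h => ha (h ▸ ho)))
        _ = O.card := by simp
    have h5 := h1 a (mem_insert_self _ _)
    rcases Nat.eq_zero_or_pos O.card with h0 | h0
    · rw [h0] at ih' h4 ⊢
      simp only [Nat.mul_zero, Nat.zero_mul, Nat.zero_add, Nat.mul_one] at ih' ⊢
      omega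
    · obtain ⟨k, hk⟩ : ∃ k, O.card = k + 1 := ⟨O.card - 1, by omega⟩
      rw [hk] at ih' h4 ⊢
      have e1 : k + 1 - 1 = k := by omega
      have e2 : k + 1 + 1 - 1 = k + 1 := by omega
      rw [e1] at ih'
      rw [e2]
      nlinarith

/-- Many lines through one rich line and the points off it. -/
theorem rich_line {S M : Finset Pt} (hM : M ∈ lines S) :
    2 + 2 * (M.card * (S.card - M.card)) ≤
      2 * (lines S).card + (S.card - M.card) * (S.card - M.card - 1) := by
  set O := S \ M with hO
  have hOc : O.card = S.card - M.card := card_sdiff_of_subset (line_subset hM)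
  have hoS : ∀ o ∈ O, o ∈ S ∧ o ∉ M := fun o ho => mem_sdiff.mp ho
  set X : Pt → Finset (Finset Pt) := fun o => M.image (fun p => lineOf S o p) with hX
  have hne : ∀ o ∈ O, ∀ p ∈ M, o ≠ p := fun o ho p hp h => (hoS o ho).2 (h ▸ hp)
  have hXc : ∀ o ∈ O, M.card ≤ (X o).card := by
    intro o ho
    rw [hX]
    simp only
    rw [card_image_of_injOn]
    intro p hp q hq h
    by_contra hpq
    simp only at h
    have h1 : p ∈ lineOf S o p := mem_lineOf.2 ⟨line_subset hM hp, cr_self_right _ _⟩
    have h2 : q ∈ lineOf S o p := by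
      rw [h]; exact mem_lineOf.2 ⟨line_subset hM hq, cr_self_right _ _⟩
    have h3 : o ∈ lineOf S o p := mem_lineOf.2 ⟨(hoS o ho).1, cr_self_left _ _⟩
    have hL : lineOf S o p ∈ lines S :=
      lineOf_mem_lines (hoS o ho).1 (line_subset hM hp) (hne o ho p hp)
    have e1 := eq_lineOf hL h1 h2 hpq
    have e2 := eq_lineOf hM hp hq hpq
    rw [e1, ← e2] at h3
    exact (hoS o ho).2 h3
  have hXi : ∀ o ∈ O, ∀ o' ∈ O, o ≠ o' → (X o ∩ X o').card ≤ 1 := by
    intro o ho o' ho' hoo
    rw [card_le_one]
    have key : ∀ N ∈ X o ∩ X o', N = lineOf S o o' := by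
      intro N hN
      obtain ⟨h1, h2⟩ := mem_inter.mp hN
      obtain ⟨p, hp, rfl⟩ := mem_image.mp h1
      obtain ⟨p', hp', h3⟩ := mem_image.mp h2
      have hL : lineOf S o p ∈ lines S :=
        lineOf_mem_lines (hoS o ho).1 (line_subset hM hp) (hne o ho p hp)
      apply eq_lineOf hL (mem_lineOf.2 ⟨(hoS o ho).1, cr_self_left _ _⟩) _ hoo
      rw [← h3]
      exact mem_lineOf.2 ⟨(hoS o' ho').1, cr_self_left _ _⟩
    intro N hN N' hN'
    rw [key N hN, key N' hN']
  have h1 := card_biUnion_ge O X M.card hXc hXi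
  have h2 : (O.biUnion X).card + 1 ≤ (lines S).card := by
    have h3 : O.biUnion X ⊆ (lines S).erase M := by
      intro N hN
      obtain ⟨o, ho, hN'⟩ := mem_biUnion.mp hN
      obtain ⟨p, hp, rfl⟩ := mem_image.mp hN'
      refine mem_erase.mpr ⟨?_, lineOf_mem_lines (hoS o ho).1 (line_subset hM hp) (hne o ho p hp)⟩
      intro h
      apply (hoS o ho).2
      rw [← h]
      exact mem_lineOf.2 ⟨(hoS o ho).1, cr_self_left _ _⟩
    have h4 := card_le_card h3
    rw [card_erase_of_mem hM] at h4
    have : 0 < (lines S).card := card_pos.mpr ⟨M, hM⟩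
    omega
  rw [hOc] at h1
  omega

theorem inter_le_one {S M M' : Finset Pt} (hM : M ∈ lines S) (hM' : M' ∈ lines S) (h : M ≠ M') :
    (M ∩ M').card ≤ 1 := by
  rw [card_le_one]
  intro a ha b hb
  by_contra hab
  obtain ⟨h1, h2⟩ := mem_inter.mp ha
  obtain ⟨h3, h4⟩ := mem_inter.mp hb
  exact h ((eq_lineOf hM h1 h3 hab).trans (eq_lineOf hM' h2 h4 hab).symm)

/-- Double counting of the incidences with a set `W` of lines. -/
theorem rich_pairs {S : Finset Pt} (W : Finset (Finset Pt)) (hW : W ⊆ lines S) (c : ℕ) :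
    2 * c * ∑ M ∈ W, M.card ≤ W.card * (W.card - 1) + S.card * (c * (c + 1)) := by
  set j : Pt → ℕ := fun p => (W.filter (fun M => p ∈ M)).card with hj
  have h1 : ∑ M ∈ W, M.card = ∑ p ∈ S, j p := by
    have : ∀ M ∈ W, M.card = ∑ p ∈ S, if p ∈ M then 1 else 0 := by
      intro M hM
      rw [← card_filter, filter_mem_eq_inter, inter_eq_right.mpr (line_subset (hW hM))]
    rw [sum_congr rfl this, sum_comm]
    apply sum_congr rfl
    intro p _
    rw [hj]
    simp only [card_filter]
  have h2 : ∑ p ∈ S, j p * (j p - 1) ≤ W.card * (W.card - 1) := by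
    have e1 : ∀ p ∈ S, j p * (j p - 1) = (W.offDiag.filter (fun q => p ∈ q.1 ∧ p ∈ q.2)).card := by
      intro p _
      have : W.offDiag.filter (fun q => p ∈ q.1 ∧ p ∈ q.2) =
          (W.filter (fun M => p ∈ M)).offDiag := by
        ext ⟨a, b⟩
        simp only [mem_filter, mem_offDiag]
        tauto
      rw [this, offDiag_card, Nat.mul_sub_one]
    rw [sum_congr rfl e1]
    simp only [card_filter]
    rw [sum_comm]
    have e2 : ∀ q ∈ W.offDiag, ∑ p ∈ S, (if p ∈ q.1 ∧ p ∈ q.2 then 1 else 0) ≤ 1 := by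
      intro q hq
      obtain ⟨q1, q2, q3⟩ := mem_offDiag.mp hq
      rw [← card_filter]
      refine le_trans (card_le_card ?_) (inter_le_one (hW q1) (hW q2) q3)
      intro p hp
      obtain ⟨-, p1, p2⟩ := mem_filter.mp hp
      exact mem_inter.mpr ⟨p1, p2⟩
    calc ∑ q ∈ W.offDiag, ∑ p ∈ S, (if p ∈ q.1 ∧ p ∈ q.2 then 1 else 0)
        ≤ ∑ q ∈ W.offDiag, 1 := sum_le_sum e2
      _ = W.offDiag.card := by simp
      _ = W.card * (W.card - 1) := by rw [offDiag_card, Nat.mul_sub_one]
  have h3 : ∀ p ∈ S, 2 * c * j p ≤ j p * (j p - 1) + c * (c + 1) := by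
    intro p _
    generalize j p = x
    rcases Nat.eq_zero_or_pos x with h | h
    · subst h; simp
    · obtain ⟨k, rfl⟩ : ∃ k, x = k + 1 := ⟨x - 1, by omega⟩
      have : k + 1 - 1 = k := by omega
      rw [this]
      rcases Nat.lt_or_ge k c with hk | hk
      · obtain ⟨d, rfl⟩ : ∃ d, c = k + d + 1 := ⟨c - k - 1, by omega⟩
        nlinarith
      · obtain ⟨d, rfl⟩ : ∃ d, k = c + d := ⟨k - c, by omega⟩
        nlinarith
  have h4 := sum_le_sum h3
  rw [← mul_sum, sum_add_distrib, sum_const, smul_eq_mul] at h4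
  rw [h1]
  omega

/-- The number of lines with exactly `k` points. -/
noncomputable def tk (S : Finset Pt) (k : ℕ) : ℕ := ((lines S).filter (fun M => M.card = k)).card

theorem sum_range (S : Finset Pt) (f : ℕ → ℕ) (m : ℕ) (hm : ∀ M ∈ lines S, M.card < m) :
    ∑ M ∈ lines S, f M.card = ∑ k ∈ range m, tk S k * f k := by
  rw [← sum_fiberwise_of_maps_to (s := lines S) (t := range m) (g := fun M => M.card)
    (fun M hM => mem_range.mpr (hm M hM))]
  apply sum_congr rfl
  intro k _
  rw [tk, ← smul_eq_mul, ← sum_const]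
  apply sum_congr rfl
  intro M hM
  rw [(mem_filter.mp hM).2]

theorem tk_low (S : Finset Pt) : tk S 0 = 0 ∧ tk S 1 = 0 := by
  constructor <;>
  · rw [tk, card_eq_zero, filter_eq_empty_iff]
    intro M hM h
    have := two_le_card hM
    omega

/-- Kelly-Moser bound: at least `2n - 4` lines. -/
theorem lines_ge {S : Finset Pt} (hn : 10 ≤ S.card)
    (hS : ∃ a ∈ S, ∃ b ∈ S, ∃ c ∈ S, cr a b c ≠ 0)
    (hmax : ∀ M ∈ lines S, M.card + 2 ≤ S.card) : 2 * S.card ≤ (lines S).card + 4 := by
  set n := S.card with hn'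
  set t := (lines S).card with ht
  have hmel := melchior hS
  have hpair := sum_pairs S
  by_cases hA : ∃ M ∈ lines S, n + 5 ≤ 3 * M.card
  · obtain ⟨M, hM, h3⟩ := hA
    have h1 := rich_line hM
    have h2 := hmax M hM
    rw [← hn', ← ht] at h1
    obtain ⟨k, hk⟩ : ∃ k, n = M.card + (k + 2) := ⟨n - M.card - 2, by omega⟩
    set m := M.card with hm
    have e1 : n - m = k + 2 := by omega
    rw [e1] at h1
    have e2 : k + 2 - 1 = k + 1 := by omega
    rw [e2] at h1
    have h3' : k + 7 ≤ 2 * m := by omega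
    have : 2 * (2 * n) ≤ 2 * (t + 4) := by
      rw [hk]
      nlinarith
    omega
  · push Not at hA
    by_contra hlt
    push Not at hlt
    have hchord : ∀ m : ℕ, (∀ M ∈ lines S, M.card ≤ m) →
        n * (n - 1) + 3 * (m + 1) ≤ (m + 3) * t := by
      intro m hm
      have h1 : ∀ M ∈ lines S, M.card * (M.card - 1) + 2 * (m + 1) ≤ 2 + (m + 1) * M.card := by
        intro M hM
        have a1 := hm M hM
        have a2 := two_le_card hM
        obtain ⟨x, hx⟩ : ∃ x, M.card = x + 2 := ⟨M.card - 2, by omega⟩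
        obtain ⟨y, hy⟩ : ∃ y, m = x + 2 + y := ⟨m - (x + 2), by omega⟩
        rw [hx, hy]
        have : x + 2 - 1 = x + 1 := by omega
        rw [this]
        nlinarith [Nat.zero_le (x * y)]
      have h2 := sum_le_sum h1
      rw [sum_add_distrib, sum_add_distrib, hpair, sum_const, sum_const, ← mul_sum, smul_eq_mul,
        smul_eq_mul] at h2
      have h3 : (m + 1) * (∑ M ∈ lines S, M.card + 3) ≤ (m + 1) * (3 * t) :=
        Nat.mul_le_mul_left _ hmel
      nlinarith
    have hm0 : ∀ M ∈ lines S, M.card ≤ (n + 4) / 3 := by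
      intro M hM
      have := hA M hM
      omega
    have h1 := hchord _ hm0
    -- large `n`
    have hn16 : n < 16 := by
      by_contra h16
      push Not at h16
      set m := (n + 4) / 3 with hm
      have h3 : 3 * m ≤ n + 4 := by omega
      obtain ⟨x, hx⟩ : ∃ x, n = x + 16 := ⟨n - 16, by omega⟩
      have h4 : t ≤ 2 * x + 27 := by omega
      have h5 : n - 1 = x + 15 := by omega
      rw [h5, hx] at h1
      have h6 : (m + 3) * t ≤ (m + 3) * (2 * x + 27) := Nat.mul_le_mul_left _ h4
      have h7 : 3 * m ≤ x + 20 := by omega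
      have h8 : (3 * m) * (2 * x + 24) ≤ (x + 20) * (2 * x + 24) := Nat.mul_le_mul_right _ h7
      nlinarith
    -- the counts
    have hm6 : ∀ M ∈ lines S, M.card < 7 := by
      intro M hM
      have := hm0 M hM
      omega
    have hs1 := sum_range S (fun k => k) 7 hm6
    have hs2 := sum_range S (fun k => k * (k - 1)) 7 hm6
    have hs0 := sum_range S (fun _ => 1) 7 hm6
    obtain ⟨ht0, ht1⟩ := tk_low S
    simp only [sum_range_succ, range_zero, sum_empty, ht0, ht1] at hs0 hs1 hs2
    rw [hpair] at hs2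
    rw [hs1] at hmel
    simp only [sum_const, smul_eq_mul, mul_one] at hs0
    rw [← ht] at hs0 hmel
    rw [← hn'] at hs2
    -- the rich lines
    have hW : ∀ c, 2 * c * (4 * tk S 4 + 5 * tk S 5 + 6 * tk S 6) ≤
        (tk S 4 + tk S 5 + tk S 6) * (tk S 4 + tk S 5 + tk S 6 - 1) + n * (c * (c + 1)) := by
      intro c
      have h := rich_pairs ((lines S).filter (fun M => 4 ≤ M.card)) (filter_subset _ _) c
      have e1 : ((lines S).filter (fun M => 4 ≤ M.card)).card = tk S 4 + tk S 5 + tk S 6 := by
        have := sum_range S (fun k => if 4 ≤ k then 1 else 0) 7 hm6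
        simp only [sum_range_succ, range_zero, sum_empty, ht0, ht1] at this
        rw [card_filter, this]
        norm_num
      have e2 : ∑ M ∈ (lines S).filter (fun M => 4 ≤ M.card), M.card =
          4 * tk S 4 + 5 * tk S 5 + 6 * tk S 6 := by
        have := sum_range S (fun k => if 4 ≤ k then k else 0) 7 hm6
        simp only [sum_range_succ, range_zero, sum_empty, ht0, ht1] at this
        rw [sum_filter, this]
        norm_num
        ring
      rw [e1, e2] at h
      exact h
    have hW1 := hW 1
    have hW2 := hW 2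
    -- lines with too many points do not occur
    have hz : ∀ k, (n + 4) / 3 < k → tk S k = 0 := by
      intro k hk
      rw [tk, card_eq_zero, filter_eq_empty_iff]
      intro M hM h
      have := hm0 M hM
      omega
    clear_value n t
    generalize tk S 2 = a2 at *
    generalize tk S 3 = a3 at *
    generalize h4 : tk S 4 = a4 at *
    generalize h5 : tk S 5 = a5 at *
    generalize h6 : tk S 6 = a6 at *
    interval_cases n
    · -- n = 10
      have z5 : a5 = 0 := by rw [← h5]; exact hz 5 (by norm_num)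
      have z6 : a6 = 0 := by rw [← h6]; exact hz 6 (by norm_num)
      subst z5 z6
      have : a4 = 6 := by omega
      subst this
      omega
    · -- n = 11
      have z6 : a6 = 0 := by rw [← h6]; exact hz 6 (by norm_num)
      subst z6
      have : a5 ≤ 4 := by omega
      have : a4 ≤ 12 := by omega
      interval_cases a5 <;> interval_cases a4 <;> omega
    · -- n = 12
      have z6 : a6 = 0 := by rw [← h6]; exact hz 6 (by norm_num)
      subst z6
      have e5 : a5 = 5 := by omega
      have e4 : a4 = 0 := by omega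
      rw [e4, e5] at hW1
      omega
    · -- n = 13
      have z6 : a6 = 0 := by rw [← h6]; exact hz 6 (by norm_num)
      omega
    · -- n = 14
      omega
    · -- n = 15
      omega

end Pool.Agent.X65.KM
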