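import Pool.Agent.X65.PR

/-! Projective rectangles: two planes with two common ordinary points on a special line have the
same section with it. -/

set_option autoImplicit false

universe u

namespace Pool.Agent.X65.PR

namespace Rect

variable {P : Type u} {R : Rect P}

theorem oln {s : Set P} (hs : s ∈ R.lines) (hD : R.D ∈ s) {x y : P} (hx : x ∈ s)
    (hxD : x ≠ R.D) (hy : y ∉ s) : R.Ord (R.ln x y) ∧ x ∈ R.ln x y ∧ y ∈ R.ln x y := by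
  obtain ⟨h1, h2, h3⟩ := ln_spec (R := R) (ne_of_mem hx hy)
  exact ⟨ord_of hs hD hx hxD hy h1 h2 h3, h2, h3⟩

theorem Ord.s_eq {l s : Set P} (hl : R.Ord l) (hs : s ∈ R.lines) (hD : R.D ∈ s) {x y : P}
    (hx : x ∈ s) (hxl : x ∈ l) (hy : y ∈ s) (hyl : y ∈ l) : x = y :=
  pt_eq hs hl.1 (Ne.symm (hl.ne_special hD)) hx hxl hy hyl

theorem Ord.ne_D {l : Set P} (hl : R.Ord l) {x : P} (hx : x ∈ l) : x ≠ R.D :=
  fun e => hl.2 (e ▸ hx)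

variable (R) in
/-- two distinct planes with two common ordinary points on a special line -/
structure Setup (s π ρ : Set P) (p p' : P) : Prop where
  hs : s ∈ R.lines
  hD : R.D ∈ s
  hπ : R.Good π
  hρ : R.Good ρ
  hne : π ≠ ρ
  pp : p ≠ p'
  pD : p ≠ R.D
  pD' : p' ≠ R.D
  ps : p ∈ s
  ps' : p' ∈ s
  p1 : p ∈ π
  p2 : p ∈ ρ
  p1' : p' ∈ π
  p2' : p' ∈ ρ

theorem Setup.inter {s π ρ : Set P} {p p' : P} (H : R.Setup s π ρ p p') {x : P} (hx : x ∈ π)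
    (hx' : x ∈ ρ) : x ∈ s :=
  H.hπ.inter_sub H.hρ H.hne H.hs H.hD H.pp H.pD H.pD' H.ps H.ps' H.p1 H.p2 H.p1' H.p2' hx hx'

/-- the central projection from `e`, along a line through `r` -/
theorem Setup.proj {s π ρ : Set P} {p p' : P} (H : R.Setup s π ρ p p') {c c' e r x : P}
    {E : Set P} (hE : R.Ord E) (cE : c ∈ E) (cE' : c' ∈ E) (es : e ∈ s) (eE : e ∈ E)
    (eπ : e ∉ π) (cs : c ∉ s) (hc' : c' ∈ ρ) (cs' : c' ∉ s)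
    (rs : r ∈ s) (rD : r ≠ R.D) (rπ : r ∈ π) (rρ : r ∈ ρ) (xs : x ∉ s)
    (xl : x ∈ R.ln r c) : ∃ x', x' ∈ ρ ∧ x' ∉ s ∧ x' ∈ R.ln e x ∧ x' ∈ R.ln r c' := by
  have eD := hE.ne_D eE
  obtain ⟨l1, l2, l3⟩ := oln H.hs H.hD rs rD cs
  obtain ⟨g1, g2, g3⟩ := oln H.hs H.hD rs rD cs'
  obtain ⟨k1, k2, k3⟩ := oln H.hs H.hD es eD xs
  have re : r ≠ e := ne_of_mem rπ eπ
  have hne : R.ln r c ≠ E := fun h => re (hE.s_eq H.hs H.hD rs (h ▸ l2) es eE)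
  obtain ⟨x', h1, h2⟩ := meet l1 hE hne ⟨c, l3, cE⟩ g1.1 k1.1 l2 g2 cE' g3 xl k3 eE k2
    (ne_of_mem rs cs') (Ne.symm (ne_of_mem es xs))
  refine ⟨x', H.hρ.line g1 rρ hc' (ne_of_mem rs cs') g2 g3 h1, fun hs' => ?_, h2, h1⟩
  exact re ((g1.s_eq H.hs H.hD rs g2 hs' h1).trans (k1.s_eq H.hs H.hD hs' h2 es k2))

theorem Setup.main {s π ρ : Set P} {p p' : P} (H : R.Setup s π ρ p p') {q : P} (qs : q ∈ s)
    (qD : q ≠ R.D) (qπ : q ∈ π) : q ∈ ρ := by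
  by_cases qp : q = p
  · rw [qp]; exact H.p2
  by_cases qp' : q = p'
  · rw [qp']; exact H.p2'
  have hs := H.hs
  have hD := H.hD
  -- the points `a₃` and `b₃`
  obtain ⟨gρ, gρo, gρρ⟩ := H.hρ.exists_ord
  obtain ⟨b₃, b₃g, b₃s, -⟩ := off_two gρo.1 hs hs (gρo.ne_special hD) (gρo.ne_special hD)
  have b₃ρ : b₃ ∈ ρ := gρρ b₃g
  have b₃D : R.D ≠ b₃ := ne_of_mem hD b₃s
  obtain ⟨w1, w2, w3⟩ := ln_spec (R := R) b₃D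
  obtain ⟨gπ, gπo, gππ⟩ := H.hπ.exists_ord
  obtain ⟨a₃, a₃g, a₃s, a₃w⟩ := off_two gπo.1 hs w1 (gπo.ne_special hD) (gπo.ne_special w2)
  have a₃π : a₃ ∈ π := gππ a₃g
  obtain ⟨Mo, Mb, Ma⟩ := oln w1 w2 w3 b₃D.symm a₃w
  set M := R.ln b₃ a₃ with hM
  obtain ⟨e, es, eM⟩ := special_meet hs hD Mo
  have eD := Mo.ne_D eM
  have eπ : e ∉ π := by
    intro h
    have := H.hπ.line Mo h a₃π (ne_of_mem es a₃s) eM Ma
    exact b₃s (H.inter (this Mb) b₃ρ)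
  have eρ : e ∉ ρ := by
    intro h
    have := H.hρ.line Mo h b₃ρ (ne_of_mem es b₃s) eM Mb
    exact a₃s (H.inter a₃π (this Ma))
  -- the lines `A' = a₃p'`, `A = a₃p`
  obtain ⟨A'o, A'p, A'a⟩ := oln hs hD H.ps' H.pD' a₃s
  obtain ⟨Ao, Ap, Aa⟩ := oln hs hD H.ps H.pD a₃s
  have A'π := H.hπ.line A'o H.p1' a₃π (ne_of_mem H.ps' a₃s) A'p A'a
  have Aπ := H.hπ.line Ao H.p1 a₃π (ne_of_mem H.ps a₃s) Ap Aa
  have AA : R.ln p a₃ ≠ R.ln p' a₃ := fun h => H.pp (A'o.s_eq hs hD H.ps (h ▸ Ap) H.ps' A'p)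
  -- the point `a₁`
  obtain ⟨a₁, a₁A, a₁a₃, a₁p'⟩ := third A'o.1 a₃ p'
  have a₁s : a₁ ∉ s := fun h => a₁p' (A'o.s_eq hs hD h a₁A H.ps' A'p)
  have a₁π : a₁ ∈ π := A'π a₁A
  -- the line `t = a₁q`
  obtain ⟨tord, tq, ta₁⟩ := oln hs hD qs qD a₁s
  set t := R.ln q a₁ with ht
  have tπ : t ⊆ π := H.hπ.line tord qπ a₁π (ne_of_mem qs a₁s) tq ta₁
  have tA' : t ≠ R.ln p' a₃ := fun h => qp' (A'o.s_eq hs hD qs (h ▸ tq) H.ps' A'p)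
  have tA : t ≠ R.ln p a₃ := fun h => qp (Ao.s_eq hs hD qs (h ▸ tq) H.ps Ap)
  -- the point `a₂`
  obtain ⟨a₂, a₂t, a₂A⟩ := H.hπ.meet tord Ao tπ Aπ
  have a₂s : a₂ ∉ s := fun h =>
    qp ((tord.s_eq hs hD qs tq h a₂t).trans (Ao.s_eq hs hD h a₂A H.ps Ap))
  have a₂π : a₂ ∈ π := tπ a₂t
  have a₂a₃ : a₂ ≠ a₃ := by
    rintro rfl
    exact tA' (eq_of_two tord.1 A'o.1 a₁a₃ ta₁ a₂t a₁A A'a)
  have a₁a₂ : a₁ ≠ a₂ := by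
    rintro rfl
    exact a₁a₃ (pt_eq Ao.1 A'o.1 AA a₂A a₁A Aa A'a)
  -- the points `b₁` and `b₂`
  obtain ⟨b₁, b₁ρ, b₁s, b₁E, b₁B⟩ := H.proj Mo Ma Mb es eM eπ a₃s b₃ρ b₃s H.ps' H.pD' H.p1' H.p2'
    a₁s a₁A
  obtain ⟨b₂, b₂ρ, b₂s, b₂E, b₂B⟩ := H.proj Mo Ma Mb es eM eπ a₃s b₃ρ b₃s H.ps H.pD H.p1 H.p2
    a₂s a₂A
  obtain ⟨E₁o, E₁e, E₁a⟩ := oln hs hD es eD a₁s
  obtain ⟨E₂o, E₂e, E₂a⟩ := oln hs hD es eD a₂s
  obtain ⟨B'o, B'p, B'b⟩ := oln hs hD H.ps' H.pD' b₃s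
  obtain ⟨Bo, Bp, Bb⟩ := oln hs hD H.ps H.pD b₃s
  have BB : R.ln p b₃ ≠ R.ln p' b₃ := fun h => H.pp (B'o.s_eq hs hD H.ps (h ▸ Bp) H.ps' B'p)
  have b₁b₂ : b₁ ≠ b₂ := by
    rintro rfl
    have h1 : b₁ = b₃ := pt_eq Bo.1 B'o.1 BB b₂B b₁B Bb B'b
    subst h1
    have h2 : R.ln e a₁ = M := eq_of_two E₁o.1 Mo.1 (ne_of_mem es b₁s) E₁e b₁E eM Mb
    have h3 : R.ln p' a₃ = M := eq_of_two A'o.1 Mo.1 a₁a₃ a₁A A'a (h2 ▸ E₁a) Ma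
    exact eπ (A'π (h3 ▸ eM))
  have EE : R.ln e a₁ ≠ R.ln e a₂ := by
    intro h
    have h1 : R.ln e a₁ = t := eq_of_two E₁o.1 tord.1 a₁a₂ E₁a (h ▸ E₂a) ta₁ a₂t
    exact eπ (tπ (h1 ▸ E₁e))
  obtain ⟨u1, u2, u3⟩ := ln_spec (R := R) b₁b₂
  set u := R.ln b₁ b₂ with hu
  have a₁b₁ : a₁ ≠ b₁ := fun h => a₁s (H.inter a₁π (h ▸ b₁ρ))
  have a₂b₂ : a₂ ≠ b₂ := fun h => a₂s (H.inter a₂π (h ▸ b₂ρ))
  -- the line `u` is ordinary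
  have uD : R.D ∉ u := by
    intro uD
    have us : u ≠ s := fun h => b₁s (h ▸ u2)
    have tu : t ≠ u := tord.ne_special uD
    obtain ⟨x, xu, xt⟩ := (R.A5 u u1 uD t tord.1 tu).exists
    have xπ : x ∈ π := tπ xt
    have xs : x ∉ s := fun h => tord.ne_D xt (pt_eq u1 hs us xu h uD hD)
    have xa₁ : x ≠ a₁ := by
      rintro rfl
      have : u = R.ln e x := eq_of_two u1 E₁o.1 a₁b₁ xu u2 E₁a b₁E
      exact E₁o.2 (this ▸ uD)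
    have xa₂ : x ≠ a₂ := by
      rintro rfl
      have : u = R.ln e x := eq_of_two u1 E₂o.1 a₂b₂ xu u3 E₂a b₂E
      exact E₂o.2 (this ▸ uD)
    obtain ⟨Co, Cp, Cx⟩ := oln hs hD H.ps' H.pD' xs
    have Cπ := H.hπ.line Co H.p1' xπ (ne_of_mem H.ps' xs) Cp Cx
    obtain ⟨c, cC, cA⟩ := H.hπ.meet Co Ao Cπ Aπ
    have cπ : c ∈ π := Aπ cA
    have cp : c ≠ p := by
      rintro rfl
      exact H.pp (Co.s_eq hs hD H.ps cC H.ps' Cp)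
    have cs : c ∉ s := fun h => cp (Ao.s_eq hs hD h cA H.ps Ap)
    have ca₃ : c ≠ a₃ := by
      rintro rfl
      have h1 : R.ln p' x = R.ln p' c :=
        eq_of_two Co.1 A'o.1 (ne_of_mem H.ps' cs) Cp cC A'p A'a
      exact tA' (eq_of_two tord.1 A'o.1 xa₁ xt ta₁ (h1 ▸ Cx) a₁A)
    have cx : c ≠ x := by
      rintro rfl
      exact tA (eq_of_two tord.1 Ao.1 xa₂ xt a₂t cA a₂A)
    obtain ⟨c', c'ρ, c's, c'E, c'B⟩ := H.proj Mo Ma Mb es eM eπ a₃s b₃ρ b₃s H.ps H.pD H.p1 H.p2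
      cs cA
    obtain ⟨Eo, Ee, Ec⟩ := oln hs hD es eD cs
    obtain ⟨Fo, Fp, Fc⟩ := oln hs hD H.ps' H.pD' cs
    have hCF : R.ln p' c = R.ln p' x := eq_of_two Fo.1 Co.1 (ne_of_mem H.ps' cs) Fp Fc Cp cC
    obtain ⟨x', x'ρ, x's, x'E, x'B⟩ := H.proj Eo Ec c'E es Ee eπ cs c'ρ c's H.ps' H.pD' H.p1'
      H.p2' xs (hCF ▸ Cx)
    -- the plane of `E₁` and `E₂`
    obtain ⟨σ, hσ, E₁σ, E₂σ⟩ := exists_good E₁o E₂o EE ⟨e, E₁e, E₂e⟩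
    have tσ : t ⊆ σ := hσ.line tord (E₁σ E₁a) (E₂σ E₂a) a₁a₂ ta₁ a₂t
    have eσ : e ∈ σ := E₁σ E₁e
    obtain ⟨Xo, Xe, Xx⟩ := oln hs hD es eD xs
    have Xσ := hσ.line Xo eσ (tσ xt) (ne_of_mem es xs) Xe Xx
    have x'σ : x' ∈ σ := Xσ x'E
    have xx' : x ≠ x' := fun h => xs (H.inter xπ (h ▸ x'ρ))
    have x'u : x' ∉ u := by
      intro h
      have : u = R.ln e x := eq_of_two u1 Xo.1 xx' xu h Xx x'E
      exact Xo.2 (this ▸ uD)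
    have b₁D : b₁ ≠ R.D := Ne.symm (ne_of_mem hD b₁s)
    have b₂D : b₂ ≠ R.D := Ne.symm (ne_of_mem hD b₂s)
    obtain ⟨G₁o, G₁b, G₁x⟩ := oln u1 uD u2 b₁D x'u
    obtain ⟨G₂o, G₂b, G₂x⟩ := oln u1 uD u3 b₂D x'u
    have GG : R.ln b₁ x' ≠ R.ln b₂ x' := by
      intro h
      have : u = R.ln b₁ x' := eq_of_two u1 G₁o.1 b₁b₂ u2 u3 G₁b (h ▸ G₂b)
      exact x'u (this ▸ G₁x)
    have n1 : b₁ ≠ x' := ne_of_mem u2 x'u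
    have n2 : b₂ ≠ x' := ne_of_mem u3 x'u
    have : σ = ρ := hσ.eq_of H.hρ G₁o G₂o GG (hσ.line G₁o (E₁σ b₁E) x'σ n1 G₁b G₁x)
      (hσ.line G₂o (E₂σ b₂E) x'σ n2 G₂b G₂x) (H.hρ.line G₁o b₁ρ x'ρ n1 G₁b G₁x)
      (H.hρ.line G₂o b₂ρ x'ρ n2 G₂b G₂x)
    exact eρ (this ▸ eσ)
  have uo : R.Ord u := ⟨u1, uD⟩
  have uρ : u ⊆ ρ := H.hρ.line uo b₁ρ b₂ρ b₁b₂ u2 u3
  obtain ⟨y, yt, yu⟩ := meet E₁o E₂o EE ⟨e, E₁e, E₂e⟩ tord.1 u1 E₁a ta₁ E₂a a₂t b₁E u2 b₂E u3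
    a₁a₂ b₁b₂
  have ys : y ∈ s := H.inter (tπ yt) (uρ yu)
  have : y = q := tord.s_eq hs hD ys yt qs tq
  exact this ▸ uρ yu

theorem Setup.symm {s π ρ : Set P} {p p' : P} (H : R.Setup s π ρ p p') : R.Setup s ρ π p p' :=
  ⟨H.hs, H.hD, H.hρ, H.hπ, H.hne.symm, H.pp, H.pD, H.pD', H.ps, H.ps', H.p2, H.p1, H.p2', H.p1'⟩

theorem Setup.section_eq {s π ρ : Set P} {p p' : P} (H : R.Setup s π ρ p p') :
    s ∩ π = s ∩ ρ := by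
  ext x
  constructor
  · rintro ⟨h1, h2⟩
    by_cases hx : x = R.D
    · rw [hx]; exact ⟨H.hD, H.hρ.D_mem⟩
    · exact ⟨h1, H.main h1 hx h2⟩
  · rintro ⟨h1, h2⟩
    by_cases hx : x = R.D
    · rw [hx]; exact ⟨H.hD, H.hπ.D_mem⟩
    · exact ⟨h1, H.symm.main h1 hx h2⟩

/-- Two planes that contain two common ordinary points of a special line have the same section
with that line. -/
theorem section_eq {π ρ s : Set P} (hπ : R.IsPlane π) (hρ : R.IsPlane ρ) (hs : s ∈ R.lines)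
    (hD : R.D ∈ s) {p p' : P} (hpp : p ≠ p') (hp : p ≠ R.D) (hp' : p' ≠ R.D)
    (h1 : p ∈ s ∩ π ∩ ρ) (h2 : p' ∈ s ∩ π ∩ ρ) : s ∩ π = s ∩ ρ := by
  by_cases hne : π = ρ
  · rw [hne]
  · exact Setup.section_eq (p := p) (p' := p') ⟨hs, hD, isPlane_iff.1 hπ, isPlane_iff.1 hρ, hne,
      hpp, hp, hp', h1.1.1, h2.1.1, h1.1.2, h1.2, h2.1.2, h2.2⟩

/-- Every point off `s` lies in exactly one plane with the given section. -/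
theorem exists_unique_plane {π s : Set P} (hπ : R.IsPlane π) (hs : s ∈ R.lines) (hD : R.D ∈ s)
    {z : P} (hz : z ∉ s) : ∃! ρ, R.IsPlane ρ ∧ z ∈ ρ ∧ s ∩ ρ = s ∩ π := by
  have hg := isPlane_iff.1 hπ
  obtain ⟨p, p', hpp, pD, pD', ps, ps', p1, p1'⟩ := hg.two_special hs hD
  obtain ⟨g1, g2, g3⟩ := oln hs hD ps pD hz
  obtain ⟨k1, k2, k3⟩ := oln hs hD ps' pD' hz
  have hgk : R.ln p z ≠ R.ln p' z := fun h => hpp (k1.s_eq hs hD ps (h ▸ g2) ps' k2)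
  obtain ⟨ρ, hρ, gρ, kρ⟩ := exists_good g1 k1 hgk ⟨z, g3, k3⟩
  have hρ' := isPlane_iff.2 hρ
  refine ⟨ρ, ⟨hρ', gρ g3, ?_⟩, ?_⟩
  · exact section_eq hρ' hπ hs hD hpp pD pD' ⟨⟨ps, gρ g2⟩, p1⟩ ⟨⟨ps', kρ k2⟩, p1'⟩
  · rintro ρ' ⟨h1, h2, h3⟩
    have q1 : p ∈ s ∩ ρ' := h3 ▸ ⟨ps, p1⟩
    have q2 : p' ∈ s ∩ ρ' := h3 ▸ ⟨ps', p1'⟩
    have h1' := isPlane_iff.1 h1
    exact h1'.eq_of hρ g1 k1 hgk (h1'.line g1 q1.2 h2 (ne_of_mem ps hz) g2 g3)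
      (h1'.line k1 q2.2 h2 (ne_of_mem ps' hz) k2 k3) gρ kρ

/-- if the rectangle is nontrivial, a plane and a special line do not cover the points -/
theorem exists_off (hn : R.Nontriv) {π s : Set P} (hπ : R.IsPlane π) (hs : s ∈ R.lines)
    (hD : R.D ∈ s) : ∃ z, z ∉ π ∧ z ∉ s := by
  have hg := isPlane_iff.1 hπ
  obtain ⟨x, hx⟩ : ∃ x, x ∉ π := by
    by_contra hno
    push Not at hno
    have hu : π = Set.univ := Set.eq_univ_of_forall hno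
    have hl : R.linesOf π = R.lines := by
      ext L
      constructor
      · rintro ⟨l, hl, rfl, -⟩
        rw [hu, Set.inter_univ]; exact hl
      · intro hL
        obtain ⟨x, y, hx, hy, hxy⟩ := two_on hL
        exact ⟨L, hL, by rw [hu, Set.inter_univ], x, hx, y, hy, hxy⟩
    have h1 := hπ.1
    unfold IsSubplane at h1
    rw [hl, hu] at h1
    exact hn h1
  by_cases hxs : x ∈ s
  · have xD : x ≠ R.D := fun e => hx (e ▸ hg.D_mem)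
    obtain ⟨g, go, gπ⟩ := hg.exists_ord
    obtain ⟨y, yg, ys, -⟩ := off_two go.1 hs hs (go.ne_special hD) (go.ne_special hD)
    obtain ⟨k1, k2, k3⟩ := oln hs hD hxs xD ys
    obtain ⟨z, zk, zx, zy⟩ := third k1.1 x y
    refine ⟨z, fun h => ?_, fun h => zx (k1.s_eq hs hD h zk hxs k2)⟩
    exact hx (hg.line k1 h (gπ yg) zy zk k3 k2)
  · exact ⟨x, hx, hxs⟩

end Rect

end Pool.Agent.X65.PR
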