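import Mathlib

/-!
Simultaneous prime solutions of the equations `a p - b q = c` for several of many given slopes, near
every position; consequences for the density of the solvable constants.  The coloured Maynard-Tao
theorem is a hypothesis (`Eng`) here.
-/

set_option autoImplicit false

namespace Pool.Agent.X65.Slopes

open Finset Filter

/-- for every `η > 0` there are arbitrarily large `x` with at least `x ^ (1 - η)` elements of `F`
up to `x` -/
def Big (F : Set ℕ) : Prop :=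
  ∀ η : ℝ, 0 < η → ∃ᶠ x : ℝ in atTop, x ^ (1 - η) ≤ ({n : ℕ | n ∈ F ∧ (n : ℝ) ≤ x}.ncard : ℝ)

/-- at least `k` of `T` classes are hit -/
def Eng (T k : ℕ) : Prop := ∃ K : ℕ, 1 ≤ K ∧ ∀ (a b : Fin T → Fin K → ℤ), (∀ g i, 0 < a g i) →
    Function.Injective (fun x : Fin T × Fin K => (a x.1 x.2, b x.1 x.2)) →
    (∀ p : ℕ, p.Prime → ∃ n : ℤ, ∀ g i, ¬ ((p : ℤ) ∣ a g i * n + b g i)) →
    ∃ (S : Finset (Fin T)) (c : Fin T → Fin K), k ≤ S.card ∧
      Big {n : ℕ | ∀ g ∈ S, 0 < a g (c g) * (n : ℤ) + b g (c g) ∧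
        Prime (a g (c g) * (n : ℤ) + b g (c g))}

/-- images of big sets -/
theorem Big.image {β : Type} {F : Set ℕ} (hF : Big F) (G : ℝ → Set β) (hG : ∀ x, (G x).Finite)
    (f : ℕ → β) (hf : Set.InjOn f F) (κ : ℝ) (hκ1 : 1 ≤ κ)
    (hfG : ∀ n ∈ F, ∀ x : ℝ, 1 ≤ x → (n : ℝ) ≤ x → f n ∈ G (κ * x)) :
    ∀ η : ℝ, 0 < η → ∃ᶠ x : ℝ in atTop, x ^ (1 - η) ≤ ((G x).ncard : ℝ) := by
  intro η hη
  have hκ0 : 0 < κ := by linarith
  have ht : Tendsto (fun x : ℝ => κ * x) atTop atTop := tendsto_id.const_mul_atTop hκ0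
  refine ht.frequently (((hF (η / 2) (by linarith)).and_eventually
    ((tendsto_rpow_atTop (show 0 < η / 2 by linarith)).eventually_ge_atTop (κ ^ (1 - η)) |>.and
      (eventually_ge_atTop (1 : ℝ)))).mono ?_)
  rintro x ⟨h1, h2, h3⟩
  have hx0 : 0 < x := by linarith
  have h4 : (κ * x) ^ (1 - η) ≤ x ^ (1 - η / 2) := by
    rw [Real.mul_rpow hκ0.le hx0.le]
    calc κ ^ (1 - η) * x ^ (1 - η) ≤ x ^ (η / 2) * x ^ (1 - η) :=
          mul_le_mul_of_nonneg_right h2 (Real.rpow_nonneg hx0.le _)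
      _ = x ^ (1 - η / 2) := by
          rw [← Real.rpow_add hx0]; congr 1; ring
  refine h4.trans (h1.trans ?_)
  have hinj : Set.InjOn f {n : ℕ | n ∈ F ∧ (n : ℝ) ≤ x} := hf.mono fun n hn => hn.1
  rw [← Set.InjOn.ncard_image hinj]
  have hsub : f '' {n : ℕ | n ∈ F ∧ (n : ℝ) ≤ x} ⊆ G (κ * x) := by
    rintro _ ⟨n, ⟨hn, hnx⟩, rfl⟩
    exact hfG n hn x h3 hnx
  exact_mod_cast Set.ncard_le_ncard hsub (hG _)

/-- the hypotheses of the question -/
def Adm (a b : ℕ) (c : ℤ) : Prop :=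
  1 ≤ a ∧ 1 ≤ b ∧ c ≠ 0 ∧ IsCoprime (a : ℤ) b ∧ IsCoprime (a : ℤ) c ∧ IsCoprime (b : ℤ) c ∧
    ¬ (Odd a ∧ Odd b ∧ Odd c)

/-- the coefficient of `p g` in the equation of `p g` and `p h` -/
def co {T : ℕ} (m : Fin T → ℕ) (g h : Fin T) : ℕ := m h / Nat.gcd (m g) (m h)

/-- the constant of the equation of `p g` and `p h` -/
def cst {T : ℕ} (m : Fin T → ℕ) (e : Fin T → ℤ) (g h : Fin T) : ℤ :=
  co m g h * e g - co m h g * e h

/-- the tuples of primes up to `x`, one for every member of `S`, that solve all the equations -/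
def Sys {T : ℕ} (m : Fin T → ℕ) (e : Fin T → ℤ) (S : Finset (Fin T)) (x : ℝ) : Set (S → ℕ) :=
  {p | (∀ g, (p g).Prime ∧ (p g : ℝ) ≤ x) ∧
    ∀ g h : S, (co m g h : ℤ) * p g - co m h g * p h = cst m e g h}

/-- avoiding the roots of few forms modulo a prime -/
theorem exists_avoid {ι : Type*} [Fintype ι] {p : ℕ} (hp : p.Prime) (hc : Fintype.card ι < p)
    (α β : ι → ℤ) (h : ∀ t, (p : ℤ) ∣ α t → ¬ (p : ℤ) ∣ β t) :
    ∃ m : ℤ, ∀ t, ¬ (p : ℤ) ∣ α t * m + β t := by
  classical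
  have : Fact p.Prime := ⟨hp⟩
  set s : Finset (ZMod p) := univ.image fun t => -(β t : ZMod p) / (α t : ZMod p) with hs
  have hcard : s.card < Fintype.card (ZMod p) := by
    calc s.card ≤ (univ : Finset ι).card := card_image_le
      _ = Fintype.card ι := rfl
      _ < p := hc
      _ = Fintype.card (ZMod p) := (ZMod.card p).symm
  obtain ⟨z, hz⟩ : ∃ z, z ∉ s := by
    by_contra hcon
    push Not at hcon
    have : s = univ := eq_univ_iff_forall.2 hcon
    rw [this, card_univ] at hcard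
    exact lt_irrefl _ hcard
  refine ⟨(z.val : ℤ), fun t hd => ?_⟩
  have h1 : ((α t * (z.val : ℤ) + β t : ℤ) : ZMod p) = 0 :=
    (ZMod.intCast_zmod_eq_zero_iff_dvd _ p).2 hd
  push_cast at h1
  rw [ZMod.natCast_zmod_val] at h1
  by_cases h2 : (α t : ZMod p) = 0
  · have h3 : (p : ℤ) ∣ α t := (ZMod.intCast_zmod_eq_zero_iff_dvd _ p).1 h2
    rw [h2, zero_mul, zero_add] at h1
    exact h t h3 ((ZMod.intCast_zmod_eq_zero_iff_dvd _ p).1 h1)
  · apply hz
    rw [hs, mem_image]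
    refine ⟨t, mem_univ _, ?_⟩
    rw [div_eq_iff h2]
    linear_combination -h1

section arith

variable {T : ℕ} {m : Fin T → ℕ}

theorem co_pos (hm : ∀ i, 1 ≤ m i) (g h : Fin T) : 1 ≤ co m g h := by
  unfold co
  have h1 : Nat.gcd (m g) (m h) ∣ m h := Nat.gcd_dvd_right _ _
  have h2 : 0 < Nat.gcd (m g) (m h) := Nat.gcd_pos_of_pos_left _ (hm g)
  exact Nat.div_pos (Nat.le_of_dvd (hm h) h1) h2

theorem co_mul (g h : Fin T) : co m g h * m g = co m h g * m h := by
  unfold co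
  rw [Nat.gcd_comm (m h) (m g)]
  obtain ⟨a, ha⟩ : Nat.gcd (m g) (m h) ∣ m g := Nat.gcd_dvd_left _ _
  obtain ⟨b, hb⟩ : Nat.gcd (m g) (m h) ∣ m h := Nat.gcd_dvd_right _ _
  rcases Nat.eq_zero_or_pos (Nat.gcd (m g) (m h)) with h0 | h0
  · rw [h0]; simp
  · set d := Nat.gcd (m g) (m h) with hd
    have e1 : m h / d = b := by rw [hb]; exact Nat.mul_div_cancel_left _ h0
    have e2 : m g / d = a := by rw [ha]; exact Nat.mul_div_cancel_left _ h0
    rw [e1, e2, ha, hb]
    ring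

theorem co_coprime (hm : ∀ i, 1 ≤ m i) (g h : Fin T) : Nat.Coprime (co m g h) (co m h g) := by
  unfold co
  rw [Nat.gcd_comm (m h) (m g)]
  exact (Nat.coprime_div_gcd_div_gcd (Nat.gcd_pos_of_pos_left _ (hm g))).symm

theorem co_dvd (g h : Fin T) : co m g h ∣ m h := by
  unfold co
  exact Nat.div_dvd_of_dvd (Nat.gcd_dvd_right _ _)

end arith

/-- **Simultaneous solutions near every position.** -/
theorem main {T k : ℕ} (hk : 1 ≤ k) (hE : Eng T k) (m : Fin T → ℕ) (hm : ∀ i, 1 ≤ m i) :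
    ∃ C : ℕ, ∀ e₀ : Fin T → ℤ, ∃ (S : Finset (Fin T)) (e : Fin T → ℤ), k ≤ S.card ∧
      (∀ g ∈ S, |e g - e₀ g| ≤ C) ∧
      (∀ g ∈ S, ∀ h ∈ S, g ≠ h → Adm (co m g h) (co m h g) (cst m e g h)) ∧
      ∀ η : ℝ, 0 < η → ∃ᶠ x : ℝ in atTop, x ^ (1 - η) ≤ ((Sys m e S x).ncard : ℝ) := by
  classical
  obtain ⟨K, hK, hE⟩ := hE
  obtain ⟨M, hM⟩ : ∃ M : ℕ, M = ∏ g, m g := ⟨_, rfl⟩
  have hM0 : 0 < M := by rw [hM]; exact Finset.prod_pos fun g _ => hm g
  have hmM : ∀ g, m g ∣ M := fun g => by rw [hM]; exact Finset.dvd_prod_of_mem m (mem_univ g)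
  obtain ⟨N, hN⟩ : ∃ N : ℕ, N = T * K := ⟨_, rfl⟩
  obtain ⟨P, hP⟩ : ∃ P : ℕ, P = (N + 2).factorial * M := ⟨_, rfl⟩
  have hP0 : 0 < P := by rw [hP]; exact Nat.mul_pos (Nat.factorial_pos _) hM0
  have hPz : (0 : ℤ) < P := by exact_mod_cast hP0
  have hMP : (M : ℤ) ∣ P := by rw [hP]; push_cast; exact Dvd.intro_left _ rfl
  have hP2 : (2 : ℤ) ∣ P := by
    have h1 : 2 ∣ (N + 2).factorial := Nat.dvd_factorial (by norm_num) (by omega)
    rw [hP]
    exact_mod_cast h1.mul_right M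
  refine ⟨P * (N + 2), fun e₀ => ?_⟩
  obtain ⟨u, hu⟩ : ∃ u : Fin T → Fin K → ℤ,
    u = fun (g : Fin T) (s : Fin K) =>
      (N : ℤ) * ((e₀ g / P) / N) + (((finProdFinEquiv (g, s) : Fin (T * K)) : ℕ) : ℤ) := ⟨_, rfl⟩
  obtain ⟨b, hb⟩ : ∃ b : Fin T → Fin K → ℤ,
    b = fun (g : Fin T) (s : Fin K) => 1 + (P : ℤ) * u g s := ⟨_, rfl⟩
  have hidx : ∀ (g : Fin T) (s : Fin K),
      (((finProdFinEquiv (g, s) : Fin (T * K)) : ℕ) : ℤ) < N := by
    intro g s
    have h1 := (finProdFinEquiv (g, s) : Fin (T * K)).2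
    have h2 : ((finProdFinEquiv (g, s) : Fin (T * K)) : ℕ) < N := h1.trans_eq hN.symm
    exact_mod_cast h2
  have hNz : ∀ g : Fin T, (0 : ℤ) < N := by
    intro g
    have h1 : 0 < T := lt_of_le_of_lt (Nat.zero_le _) g.2
    have h2 : 0 < N := by rw [hN]; exact Nat.mul_pos h1 (by omega)
    exact_mod_cast h2
  have hbA : ∀ (g : Fin T) (s : Fin K), |b g s - e₀ g| ≤ ((P * (N + 2) : ℕ) : ℤ) := by
    intro g s
    have h1 := Int.mul_ediv_add_emod (e₀ g) P
    have h2 := Int.emod_nonneg (e₀ g) hPz.ne'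
    have h3 := Int.emod_lt_of_pos (e₀ g) hPz
    have h4 := Int.mul_ediv_add_emod (e₀ g / P) N
    have h5 := Int.emod_nonneg (e₀ g / P) (hNz g).ne'
    have h6 := Int.emod_lt_of_pos (e₀ g / P) (hNz g)
    have h7 := hidx g s
    have h8 : (0 : ℤ) ≤ (((finProdFinEquiv (g, s) : Fin (T * K)) : ℕ) : ℤ) := by positivity
    set I : ℤ := (((finProdFinEquiv (g, s) : Fin (T * K)) : ℕ) : ℤ) with hI
    have e1 : b g s - e₀ g = 1 - e₀ g % P + P * (I - e₀ g / P % N) := by
      rw [hb, hu]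
      simp only
      rw [← hI]
      linear_combination h1 + (P : ℤ) * h4
    rw [e1]
    have e2 : |I - e₀ g / P % N| ≤ N := by rw [abs_le]; constructor <;> linarith
    have e3 : |1 - e₀ g % P| ≤ P + 1 := by rw [abs_le]; constructor <;> linarith
    calc |1 - e₀ g % P + P * (I - e₀ g / P % N)| ≤ |1 - e₀ g % P| + |P * (I - e₀ g / P % N)| :=
          abs_add_le _ _
      _ = |1 - e₀ g % P| + P * |I - e₀ g / P % N| := by rw [abs_mul, abs_of_pos hPz]
      _ ≤ (P + 1) + P * N := add_le_add e3 (mul_le_mul_of_nonneg_left e2 hPz.le)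
      _ ≤ ((P * (N + 2) : ℕ) : ℤ) := by
          push_cast
          have : (1 : ℤ) ≤ P := hPz
          linarith
  have hbinj : ∀ (g : Fin T) (s : Fin K) (g' : Fin T) (s' : Fin K), b g s = b g' s' →
      g = g' ∧ s = s' := by
    intro g s g' s' h1
    rw [hb] at h1
    simp only at h1
    have h2 : u g s = u g' s' := mul_left_cancel₀ hPz.ne' (add_left_cancel h1)
    have h3 : ∀ (g : Fin T) (s : Fin K),
        u g s % N = (((finProdFinEquiv (g, s) : Fin (T * K)) : ℕ) : ℤ) := by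
      intro g s
      rw [hu]
      simp only
      rw [Int.mul_add_emod_self_left]
      exact Int.emod_eq_of_lt (by positivity) (hidx g s)
    have h4 := h3 g s
    rw [h2, h3 g' s'] at h4
    have h5 : (finProdFinEquiv (g', s') : Fin (T * K)) = finProdFinEquiv (g, s) :=
      Fin.ext (by exact_mod_cast h4)
    have h6 := finProdFinEquiv.injective h5
    exact ⟨(congrArg Prod.fst h6).symm, (congrArg Prod.snd h6).symm⟩
  -- the coloured Maynard-Tao theorem
  obtain ⟨S, c, hS, hBig⟩ := hE (fun g _ => ((P * m g : ℕ) : ℤ)) b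
    (fun g _ => by exact_mod_cast Nat.mul_pos hP0 (hm g))
    (by
      rintro ⟨g, s⟩ ⟨g', s'⟩ h
      obtain ⟨h1, h2⟩ := hbinj g s g' s' (congrArg Prod.snd h)
      rw [h1, h2])
    (by
      intro p hp
      have hpp := Nat.prime_iff_prime_int.1 hp
      by_cases hpP : (p : ℤ) ∣ P
      · refine ⟨0, fun g s hdv => ?_⟩
        rw [mul_zero, zero_add, hb] at hdv
        exact hpp.not_isUnit (isUnit_of_dvd_one ((dvd_add_left (Dvd.dvd.mul_right hpP _)).1 hdv))
      · have hlt : N < p := by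
          by_contra hle
          apply hpP
          rw [hP]
          exact_mod_cast (Nat.dvd_factorial hp.pos (by omega : p ≤ N + 2)).mul_right _
        obtain ⟨y, hy⟩ := exists_avoid (ι := Fin T × Fin K) hp (by
          rw [Fintype.card_prod, Fintype.card_fin, Fintype.card_fin, ← hN]
          exact hlt) (fun t => ((P * m t.1 : ℕ) : ℤ)) (fun t => b t.1 t.2) (fun t h => by
            exfalso
            push_cast at h
            rcases hpp.dvd_or_dvd h with h | h
            · exact hpP h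
            · exact hpP (h.trans ((by exact_mod_cast hmM t.1 : (m t.1 : ℤ) ∣ M).trans hMP)))
        exact ⟨y, fun g s => hy (g, s)⟩)
  have hcopb : ∀ (t : ℕ) (z : Fin T) (s : Fin K), t ∣ M → IsCoprime (t : ℤ) (b z s) := by
    intro t z s ht
    have h1 : (t : ℤ) ∣ P := (by exact_mod_cast ht : (t : ℤ) ∣ M).trans hMP
    obtain ⟨w, hw⟩ := h1
    refine ⟨-(w * u z s), 1, ?_⟩
    rw [hb]
    simp only
    rw [hw]
    ring
  have hbodd : ∀ (z : Fin T) (s : Fin K), Odd (b z s) := by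
    intro z s
    obtain ⟨w, hw⟩ := hP2
    refine ⟨w * u z s, ?_⟩
    rw [hb]
    simp only
    rw [hw]
    ring
  refine ⟨S, fun g => b g (c g), hS, fun g _ => hbA g (c g), ?_, ?_⟩
  · intro g hg h hh hgh
    set a : ℕ := co m g h with ha
    set a' : ℕ := co m h g with ha'
    have haM : a ∣ M := (co_dvd g h).trans (hmM h)
    have haM' : a' ∣ M := (co_dvd h g).trans (hmM g)
    have hcop : IsCoprime (a : ℤ) a' := Nat.isCoprime_iff_coprime.2 (co_coprime hm g h)
    have hcst : cst m (fun g => b g (c g)) g h = a * b g (c g) - a' * b h (c h) := rfl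
    have hac : IsCoprime (a : ℤ) (cst m (fun g => b g (c g)) g h) := by
      rw [hcst]
      have h1 : IsCoprime (a : ℤ) (-(a' * b h (c h))) :=
        (hcop.mul_right (hcopb a h (c h) haM)).neg_right
      have h2 := h1.add_mul_left_right (b g (c g))
      have h3 : -(a' * b h (c h)) + a * b g (c g) = a * b g (c g) - a' * b h (c h) := by ring
      rwa [h3] at h2
    have hec : IsCoprime (a' : ℤ) (cst m (fun g => b g (c g)) g h) := by
      rw [hcst]
      have h1 : IsCoprime (a' : ℤ) (a * b g (c g)) :=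
        hcop.symm.mul_right (hcopb a' g (c g) haM')
      have h2 := h1.add_mul_left_right (-(b h (c h)))
      have h3 : a * b g (c g) + a' * (-(b h (c h))) = a * b g (c g) - a' * b h (c h) := by ring
      rwa [h3] at h2
    refine ⟨co_pos hm g h, co_pos hm h g, ?_, hcop, hac, hec, ?_⟩
    · intro h0
      rw [h0] at hac hec
      have h1 : IsUnit (a : ℤ) := isCoprime_zero_right.1 hac
      have h2 : IsUnit (a' : ℤ) := isCoprime_zero_right.1 hec
      have h3 : a = 1 := by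
        have := Int.isUnit_iff.1 h1
        omega
      have h4 : a' = 1 := by
        have := Int.isUnit_iff.1 h2
        omega
      rw [hcst, h3, h4] at h0
      have h5 : b g (c g) = b h (c h) := by push_cast at h0; linarith
      exact hgh (hbinj _ _ _ _ h5).1
    · rintro ⟨h1, h2, h3⟩
      rw [hcst] at h3
      have h4 : Odd ((a : ℤ) * b g (c g)) := ((Int.odd_coe_nat a).2 h1).mul (hbodd _ _)
      have h5 : Odd ((a' : ℤ) * b h (c h)) := ((Int.odd_coe_nat a').2 h2).mul (hbodd _ _)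
      exact (Int.not_even_iff_odd.2 h3) (h4.sub_odd h5)
  · -- the number of solutions
    obtain ⟨g₀, hg₀⟩ : S.Nonempty := by
      rw [← Finset.card_pos]
      omega
    set κ : ℝ := 1 + ∑ g : Fin T, (((P * m g : ℕ) : ℝ) + |(b g (c g) : ℝ)|) with hκ
    have hterm : ∀ g : Fin T, 0 ≤ ((P * m g : ℕ) : ℝ) + |(b g (c g) : ℝ)| := fun g => by positivity
    have hκ1 : 1 ≤ κ := by
      have : 0 ≤ ∑ g : Fin T, (((P * m g : ℕ) : ℝ) + |(b g (c g) : ℝ)|) :=
        sum_nonneg fun g _ => hterm g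
      linarith
    have hκg : ∀ g : Fin T, ((P * m g : ℕ) : ℝ) + |(b g (c g) : ℝ)| ≤ κ := by
      intro g
      have := single_le_sum (f := fun g : Fin T => ((P * m g : ℕ) : ℝ) + |(b g (c g) : ℝ)|)
        (fun g _ => hterm g) (mem_univ g)
      linarith
    refine Big.image hBig (Sys m (fun g => b g (c g)) S) ?_
      (fun n (g : S) => (((P * m g : ℕ) : ℤ) * n + b g (c g)).toNat) ?_ κ hκ1 ?_
    · intro x
      apply (Set.Finite.pi' (fun _ : S => Set.finite_Iic ⌊x⌋₊)).subset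
      intro p hp g
      exact Nat.le_floor (hp.1 g).2
    · intro n hn n' hn' h
      have h1 := congrFun h ⟨g₀, hg₀⟩
      simp only at h1
      have h2 := hn g₀ hg₀
      have h3 := hn' g₀ hg₀
      have e1 := Int.toNat_of_nonneg h2.1.le
      have e2 := Int.toNat_of_nonneg h3.1.le
      rw [h1, e2] at e1
      have h4 : (((P * m g₀ : ℕ) : ℤ)) * n = ((P * m g₀ : ℕ) : ℤ) * n' := by linarith
      have h5 : ((P * m g₀ : ℕ) : ℤ) ≠ 0 := by
        exact_mod_cast (Nat.mul_pos hP0 (hm g₀)).ne'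
      exact_mod_cast mul_left_cancel₀ h5 h4
    · intro n hn x hx1 hnx
      have hval : ∀ g : S, (((((P * m g : ℕ) : ℤ) * n + b g (c g)).toNat : ℕ) : ℤ) =
          ((P * m g : ℕ) : ℤ) * n + b g (c g) := fun g => Int.toNat_of_nonneg (hn g g.2).1.le
      refine ⟨fun g => ⟨?_, ?_⟩, ?_⟩
      · rw [Nat.prime_iff_prime_int, hval g]
        exact (hn g g.2).2
      · have e1 : (((((P * m g : ℕ) : ℤ) * n + b g (c g)).toNat : ℕ) : ℝ) =
            ((P * m g : ℕ) : ℝ) * n + (b g (c g) : ℝ) := by exact_mod_cast hval g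
        rw [e1]
        have e2 : (b g (c g) : ℝ) ≤ |(b g (c g) : ℝ)| * x :=
          (le_abs_self _).trans (le_mul_of_one_le_right (abs_nonneg _) hx1)
        have e3 : ((P * m g : ℕ) : ℝ) * n ≤ ((P * m g : ℕ) : ℝ) * x :=
          mul_le_mul_of_nonneg_left hnx (Nat.cast_nonneg _)
        calc ((P * m g : ℕ) : ℝ) * n + (b g (c g) : ℝ)
            ≤ (((P * m g : ℕ) : ℝ) + |(b g (c g) : ℝ)|) * x := by linarith
          _ ≤ κ * x := mul_le_mul_of_nonneg_right (hκg g) (by linarith)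
      · intro g h
        show (co m g h : ℤ) * _ - co m h g * _ = _
        rw [hval g, hval h]
        unfold cst
        have h1 : (co m g h : ℤ) * m g = co m h g * m h := by exact_mod_cast co_mul g.1 h.1
        push_cast
        linear_combination ((P : ℤ) * n) * h1

/-! ### The density of the solvable constants -/

/-- `(a, b, c)` satisfies the hypotheses of the question, and `a p - b q = c` has at least
`x ^ (1 - η)` solutions in primes `p, q ≤ x`, for arbitrarily large `x`, for every `η > 0` -/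
def Good (a b : ℕ) (c : ℤ) : Prop :=
  Adm a b c ∧ ∀ η : ℝ, 0 < η → ∃ᶠ x : ℝ in atTop, x ^ (1 - η) ≤
    ({y : ℕ × ℕ | (y.1.Prime ∧ (y.1 : ℝ) ≤ x) ∧ (y.2.Prime ∧ (y.2 : ℝ) ≤ x) ∧
      (a : ℤ) * y.1 - b * y.2 = c}.ncard : ℝ)

theorem Adm.swap {a b : ℕ} {c : ℤ} (h : Adm a b c) : Adm b a (-c) := by
  obtain ⟨h1, h2, h3, h4, h5, h6, h7⟩ := h
  exact ⟨h2, h1, neg_ne_zero.2 h3, h4.symm, h6.neg_right, h5.neg_right,
    fun h => h7 ⟨h.2.1, h.1, by simpa using h.2.2⟩⟩

theorem Good.swap {a b : ℕ} {c : ℤ} (h : Good a b c) : Good b a (-c) := by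
  refine ⟨h.1.swap, fun η hη => (h.2 η hη).mono fun x hx => hx.trans ?_⟩
  have e : {y : ℕ × ℕ | (y.1.Prime ∧ (y.1 : ℝ) ≤ x) ∧ (y.2.Prime ∧ (y.2 : ℝ) ≤ x) ∧
      (a : ℤ) * y.1 - b * y.2 = c} = Prod.swap ⁻¹' {y : ℕ × ℕ | (y.1.Prime ∧ (y.1 : ℝ) ≤ x) ∧
        (y.2.Prime ∧ (y.2 : ℝ) ≤ x) ∧ (b : ℤ) * y.1 - a * y.2 = -c} := by
    ext y
    simp only [Set.mem_ofPred_eq, Set.mem_preimage, Prod.fst_swap, Prod.snd_swap]
    constructor
    · rintro ⟨h1, h2, h3⟩
      exact ⟨h2, h1, by linarith⟩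
    · rintro ⟨h1, h2, h3⟩
      exact ⟨h2, h1, by linarith⟩
  rw [e, Set.ncard_preimage_of_injective_subset_range Prod.swap_injective
    (fun y _ => ⟨y.swap, y.swap_swap⟩)]

open Classical in
/-- the set of the good constants for `a, b` has positive upper density -/
def PosDens (a b : ℕ) : Prop :=
  ∃ δ : ℝ, 0 < δ ∧ ∃ᶠ X : ℕ in atTop,
    δ * X ≤ (((Icc (-(X : ℤ)) X).filter (fun c => Good a b c)).card : ℝ)

theorem PosDens.swap {a b : ℕ} (h : PosDens a b) : PosDens b a := by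
  classical
  obtain ⟨δ, hδ, h⟩ := h
  refine ⟨δ, hδ, h.mono fun X hX => hX.trans ?_⟩
  rw [Nat.cast_le]
  apply card_le_card_of_injOn (fun c => -c)
  · intro c hc
    obtain ⟨h1, h2⟩ := mem_filter.1 (mem_coe.1 hc)
    rw [mem_Icc] at h1
    apply mem_coe.2
    rw [mem_filter, mem_Icc]
    exact ⟨⟨by linarith [h1.2], by linarith [h1.1]⟩, h2.swap⟩
  · intro c _ c' _ h
    exact neg_injective h

theorem sys_inj {T : ℕ} {m : Fin T → ℕ} (hm : ∀ i, 1 ≤ m i) (e : Fin T → ℤ) (S : Finset (Fin T))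
    (x : ℝ) (g h : S) : Set.InjOn (fun p : S → ℕ => (p g, p h)) (Sys m e S x) := by
  intro p hp q hq hpq
  have h1 : p g = q g := congrArg Prod.fst hpq
  funext i
  have h2 := hp.2 g i
  have h3 := hq.2 g i
  rw [h1] at h2
  have h4 : (co m i g : ℤ) * p i = co m i g * q i := by linarith
  have h5 : (co m i g : ℤ) ≠ 0 := by
    have := co_pos hm i.1 g.1
    exact_mod_cast (by omega : co m i g ≠ 0)
  exact_mod_cast mul_left_cancel₀ h5 h4

theorem good_of {T : ℕ} {m : Fin T → ℕ} (hm : ∀ i, 1 ≤ m i) (e : Fin T → ℤ) (S : Finset (Fin T))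
    (g h : Fin T) (hg : g ∈ S) (hh : h ∈ S) (hadm : Adm (co m g h) (co m h g) (cst m e g h))
    (H : ∀ η : ℝ, 0 < η → ∃ᶠ x : ℝ in atTop, x ^ (1 - η) ≤ ((Sys m e S x).ncard : ℝ)) :
    Good (co m g h) (co m h g) (cst m e g h) := by
  refine ⟨hadm, fun η hη => (H η hη).mono fun x hx => hx.trans ?_⟩
  rw [Nat.cast_le, ← Set.InjOn.ncard_image (sys_inj hm e S x ⟨g, hg⟩ ⟨h, hh⟩)]
  apply Set.ncard_le_ncard
  · rintro _ ⟨p, hp, rfl⟩
    exact ⟨hp.1 ⟨g, hg⟩, hp.1 ⟨h, hh⟩, hp.2 ⟨g, hg⟩ ⟨h, hh⟩⟩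
  · apply ((Set.finite_Iic ⌊x⌋₊).prod (Set.finite_Iic ⌊x⌋₊)).subset
    rintro y ⟨h1, h2, _⟩
    exact ⟨Nat.le_floor h1.2, Nat.le_floor h2.2⟩

/-- for one pair of four slopes the good constants have positive upper density -/
theorem four {T : ℕ} (hE : Eng T 2) (m : Fin T → ℕ) (hm : ∀ i, 1 ≤ m i) :
    ∃ g h : Fin T, g ≠ h ∧ PosDens (co m g h) (co m h g) := by
  classical
  obtain ⟨C, hC⟩ := main (by norm_num) hE m hm
  -- the positions
  obtain ⟨R, hR⟩ : ∃ R : ℕ, R = ∏ g, m g := ⟨_, rfl⟩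
  have hR0 : 0 < R := by rw [hR]; exact Finset.prod_pos fun g _ => hm g
  have hmR : ∀ g, m g ∣ R := fun g => by rw [hR]; exact Finset.dvd_prod_of_mem m (mem_univ g)
  have hcoR : ∀ g h, co m g h ≤ R := fun g h => Nat.le_of_dvd hR0 ((co_dvd g h).trans (hmR h))
  obtain ⟨D, hD⟩ : ∃ D : ℕ, D = 2 * R * C := ⟨_, rfl⟩
  have key : ∀ B : ℕ, ∃ (g h : Fin T) (c : ℤ), g ≠ h ∧ Good (co m g h) (co m h g) c ∧
      |c - (co m g h * m g : ℕ) * ((g : ℤ) - h) * B| ≤ D := by
    intro B
    obtain ⟨S, e, hS, h1, h2, h3⟩ := hC (fun g => (m g : ℤ) * g * B)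
    obtain ⟨g, hg, h, hh, hgh⟩ := Finset.one_lt_card.1 (by omega : 1 < S.card)
    refine ⟨g, h, cst m e g h, hgh, good_of hm e S g h hg hh (h2 g hg h hh hgh) h3, ?_⟩
    have e1 : (co m h g : ℤ) * m h = co m g h * m g := by exact_mod_cast (co_mul g h).symm
    have e2 : cst m e g h - (co m g h * m g : ℕ) * ((g : ℤ) - h) * B =
        co m g h * (e g - (m g : ℤ) * g * B) - co m h g * (e h - (m h : ℤ) * h * B) := by
      unfold cst
      push_cast
      linear_combination (-(h : ℤ) * B) * e1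
    rw [e2]
    calc |(co m g h : ℤ) * (e g - (m g : ℤ) * g * B) - co m h g * (e h - (m h : ℤ) * h * B)|
        ≤ |(co m g h : ℤ) * (e g - (m g : ℤ) * g * B)| +
            |(co m h g : ℤ) * (e h - (m h : ℤ) * h * B)| := abs_sub _ _
      _ = co m g h * |e g - (m g : ℤ) * g * B| + co m h g * |e h - (m h : ℤ) * h * B| := by
          rw [abs_mul, abs_mul, Nat.abs_cast, Nat.abs_cast]
      _ ≤ (R : ℤ) * C + R * C := by
          apply add_le_add
          · exact mul_le_mul (by exact_mod_cast hcoR g h) (h1 g hg) (abs_nonneg _) (by positivity)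
          · exact mul_le_mul (by exact_mod_cast hcoR h g) (h1 h hh) (abs_nonneg _) (by positivity)
      _ = (D : ℤ) := by rw [hD]; push_cast; ring
  choose G H c hne hgood hclose using key
  -- pigeonhole for the pair
  obtain ⟨⟨g, h⟩, hinf⟩ : ∃ z : Fin T × Fin T, ∃ᶠ X : ℕ in atTop,
      X ≤ (T * T) * ((Icc 1 X).filter (fun B => (G B, H B) = z)).card := by
    by_contra hcon
    push Not at hcon
    have h1 : ∀ᶠ X : ℕ in atTop, ∀ z : Fin T × Fin T,
        ¬ X ≤ (T * T) * ((Icc 1 X).filter (fun B => (G B, H B) = z)).card := by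
      rw [eventually_all]
      intro z
      exact (hcon z).mono fun X hX => not_le.2 hX
    obtain ⟨X, hX, hX1⟩ := (h1.and (eventually_ge_atTop 1)).exists
    have h2 : X = ∑ z : Fin T × Fin T, ((Icc 1 X).filter (fun B => (G B, H B) = z)).card := by
      rw [← card_eq_sum_card_fiberwise (s := Icc 1 X) (t := univ) (f := fun B => (G B, H B))
        (fun _ _ => mem_coe.2 (mem_univ _)), Nat.card_Icc]
      omega
    have h3 : ∀ z : Fin T × Fin T,
        (T * T) * ((Icc 1 X).filter (fun B => (G B, H B) = z)).card < X :=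
      fun z => not_le.1 (hX z)
    have hTT : (univ : Finset (Fin T × Fin T)).card = T * T := by simp
    have hne' : (univ : Finset (Fin T × Fin T)).Nonempty := ⟨(G 0, H 0), mem_univ _⟩
    have h4 : ∑ z : Fin T × Fin T, (T * T) *
        ((Icc 1 X).filter (fun B => (G B, H B) = z)).card < ∑ _z : Fin T × Fin T, X :=
      sum_lt_sum_of_nonempty hne' fun z _ => h3 z
    rw [← mul_sum, ← h2, sum_const, hTT, smul_eq_mul] at h4
    exact lt_irrefl _ h4
  have hgh : g ≠ h := by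
    obtain ⟨X, hX, hX1⟩ := (hinf.and_eventually (eventually_ge_atTop 1)).exists
    have h1 : ((Icc 1 X).filter (fun B => (G B, H B) = (g, h))).Nonempty := by
      rw [← Finset.card_pos]
      by_contra h0
      rw [Nat.eq_zero_of_not_pos h0] at hX
      omega
    obtain ⟨B, hB⟩ := h1
    have h2 := (mem_filter.1 hB).2
    have h3 : G B = g := congrArg Prod.fst h2
    have h4 : H B = h := congrArg Prod.snd h2
    have h5 := hne B
    rwa [h3, h4] at h5
  obtain ⟨L, hL⟩ : ∃ L : ℤ, L = (co m g h * m g : ℕ) * ((g : ℤ) - h) := ⟨_, rfl⟩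
  have hco0 : 1 ≤ co m g h * m g := Nat.mul_pos (co_pos hm g h) (hm g)
  have hL1 : 1 ≤ |L| := by
    rw [hL, abs_mul, Nat.abs_cast]
    have h1 : (1 : ℤ) ≤ (co m g h * m g : ℕ) := by exact_mod_cast hco0
    have h2 : 1 ≤ |(g : ℤ) - h| := by
      apply Int.one_le_abs
      intro h0
      apply hgh
      apply Fin.ext
      have : (g : ℤ) = h := by linarith
      exact_mod_cast this
    calc (1 : ℤ) = 1 * 1 := by norm_num
      _ ≤ _ := mul_le_mul h1 h2 (by norm_num) (by positivity)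
  have hL2 : |L| ≤ (R * R * T : ℕ) := by
    rw [hL, abs_mul, Nat.abs_cast]
    have h1 : (co m g h * m g : ℕ) ≤ R * R :=
      Nat.mul_le_mul (hcoR g h) (Nat.le_of_dvd hR0 (hmR g))
    have h2 : |(g : ℤ) - h| ≤ T := by
      have := g.2
      have := h.2
      rw [abs_le]
      constructor <;> omega
    calc ((co m g h * m g : ℕ) : ℤ) * |(g : ℤ) - h| ≤ ((R * R : ℕ) : ℤ) * T :=
          mul_le_mul (by exact_mod_cast h1) h2 (abs_nonneg _) (by positivity)
      _ = _ := by push_cast; ring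
  obtain ⟨κ, hκ⟩ : ∃ κ : ℕ, κ = R * R * T + D + 1 := ⟨_, rfl⟩
  have hκ0 : 0 < κ := by omega
  have hT0 : 0 < T := lt_of_le_of_lt (Nat.zero_le _) g.2
  refine ⟨g, h, hgh, 1 / ((T * T) * (4 * D + 1) * κ : ℕ), by positivity, ?_⟩
  have ht : Tendsto (fun X : ℕ => κ * X) atTop atTop :=
    Filter.tendsto_id.const_mul_atTop' hκ0
  refine ht.frequently ((hinf.and_eventually (eventually_ge_atTop 1)).mono ?_)
  rintro X ⟨hX, hX1⟩
  have hfib : ((Icc 1 X).filter (fun B => (G B, H B) = (g, h))).card ≤ (4 * D + 1) *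
      ((Icc (-((κ * X : ℕ) : ℤ)) ((κ * X : ℕ) : ℤ)).filter
        (fun c => Good (co m g h) (co m h g) c)).card := by
    have hcl : ∀ B ∈ (Icc 1 X).filter (fun B => (G B, H B) = (g, h)),
        Good (co m g h) (co m h g) (c B) ∧ |c B - L * B| ≤ D := by
      intro B hB
      have h2 := (mem_filter.1 hB).2
      have h3 : G B = g := congrArg Prod.fst h2
      have h4 : H B = h := congrArg Prod.snd h2
      have h5 := hgood B
      have h6 := hclose B
      rw [h3, h4] at h5 h6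
      rw [hL]
      exact ⟨h5, h6⟩
    apply card_le_mul_card_image_of_maps_to (f := c)
    · intro B hB
      obtain ⟨h5, h6⟩ := hcl B hB
      have hB' := (mem_filter.1 hB).1
      rw [mem_Icc] at hB'
      rw [mem_filter, mem_Icc, ← abs_le]
      refine ⟨?_, h5⟩
      have h7 : |L * (B : ℤ)| ≤ (R * R * T : ℕ) * X := by
        rw [abs_mul, Nat.abs_cast]
        exact mul_le_mul hL2 (by exact_mod_cast hB'.2) (by positivity) (by positivity)
      have h8 : |c B| ≤ |c B - L * B| + |L * (B : ℤ)| := by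
        have := abs_add_le (c B - L * B) (L * B)
        rwa [sub_add_cancel] at this
      have h9 : (D : ℤ) ≤ D * X := by
        have : (1 : ℤ) ≤ X := by exact_mod_cast hX1
        nlinarith [Int.natCast_nonneg D]
      rw [hκ]
      push_cast at h7 ⊢
      have : (0 : ℤ) ≤ X := Int.natCast_nonneg X
      nlinarith
    · intro b _
      rcases (((Icc 1 X).filter (fun B => (G B, H B) = (g, h))).filter
        (fun B => c B = b)).eq_empty_or_nonempty with h0 | ⟨B₁, hB₁⟩
      · rw [h0, card_empty]; exact Nat.zero_le _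
      · obtain ⟨h1, h2⟩ := mem_filter.1 hB₁
        have h3 := (hcl B₁ h1).2
        calc _ ≤ (Icc (B₁ - 2 * D) (B₁ + 2 * D)).card := by
              apply card_le_card
              intro B hB
              obtain ⟨h4, h5⟩ := mem_filter.1 hB
              have h6 := (hcl B h4).2
              rw [h5] at h6
              rw [h2] at h3
              have h7 : |L * ((B : ℤ) - B₁)| ≤ 2 * D := by
                have : L * ((B : ℤ) - B₁) = (b - L * B₁) - (b - L * B) := by ring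
                rw [this]
                calc _ ≤ |b - L * B₁| + |b - L * B| := abs_sub _ _
                  _ ≤ 2 * D := by linarith
              rw [abs_mul] at h7
              have h8 : |(B : ℤ) - B₁| ≤ 2 * D := by
                calc |(B : ℤ) - B₁| = 1 * |(B : ℤ) - B₁| := (one_mul _).symm
                  _ ≤ |L| * |(B : ℤ) - B₁| := mul_le_mul_of_nonneg_right hL1 (abs_nonneg _)
                  _ ≤ 2 * D := h7
              rw [abs_le] at h8
              rw [mem_Icc]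
              omega
          _ ≤ 4 * D + 1 := by
              rw [Nat.card_Icc]
              omega
  have h1 : X ≤ (T * T) * ((4 * D + 1) *
      ((Icc (-((κ * X : ℕ) : ℤ)) ((κ * X : ℕ) : ℤ)).filter
        (fun c => Good (co m g h) (co m h g) c)).card) :=
    hX.trans (Nat.mul_le_mul_left _ hfib)
  have h2 : (X : ℝ) ≤ (T * T) * ((4 * D + 1) *
      (((Icc (-((κ * X : ℕ) : ℤ)) ((κ * X : ℕ) : ℤ)).filter
        (fun c => Good (co m g h) (co m h g) c)).card : ℝ)) := by exact_mod_cast h1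
  have hT1 : (0 : ℝ) < T := by exact_mod_cast hT0
  have hκ1 : (0 : ℝ) < κ := by exact_mod_cast hκ0
  push_cast
  rw [div_mul_eq_mul_div, one_mul, div_le_iff₀ (by positivity)]
  calc (κ : ℝ) * X ≤ κ * ((T * T) * ((4 * D + 1) *
      (((Icc (-((κ * X : ℕ) : ℤ)) ((κ * X : ℕ) : ℤ)).filter
        (fun c => Good (co m g h) (co m h g) c)).card : ℝ))) :=
        mul_le_mul_of_nonneg_left h2 hκ1.le
    _ = _ := by push_cast; ring

/-- the pairs of slopes with a set of good constants of positive upper density -/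
def Dense (x y : ℕ) : Prop := PosDens (y / Nat.gcd x y) (x / Nat.gcd x y)

theorem Dense.symm {x y : ℕ} (h : Dense x y) : Dense y x := by
  unfold Dense at *
  rw [Nat.gcd_comm y x]
  exact h.swap

open Classical in
/-- **A third of all pairs of slopes.** -/
theorem third (hE : Eng 4 2) (M : Finset ℕ) (hM : ∀ x ∈ M, 1 ≤ x) :
    (M.card : ℝ) ^ 2 / 3 - M.card ≤ ((M.offDiag.filter (fun z => Dense z.1 z.2)).card : ℝ) := by
  -- the graph of the other pairs
  let G : SimpleGraph M :=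
    { Adj := fun x y => x ≠ y ∧ ¬ Dense x y
      symm := ⟨fun x y h => ⟨h.1.symm, fun h' => h.2 h'.symm⟩⟩
      loopless := ⟨fun x h => h.1 rfl⟩ }
  have hfree : G.CliqueFree (3 + 1) := by
    intro s hs
    obtain ⟨hclq, hcard⟩ := hs
    obtain ⟨e⟩ : Nonempty (Fin 4 ≃ s) := ⟨(Finset.equivFinOfCardEq hcard).symm⟩
    obtain ⟨g, h, hgh, hd⟩ := four hE (fun i => ((e i : M) : ℕ)) (fun i => hM _ (e i : M).2)
    have h1 : (e g : M) ≠ (e h : M) := fun h' => hgh (e.injective (Subtype.ext h'))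
    have h2 := hclq (e g).2 (e h).2 h1
    apply h2.2
    unfold Dense
    have h3 : co (fun i => ((e i : M) : ℕ)) h g =
        ((e g : M) : ℕ) / Nat.gcd ((e g : M) : ℕ) ((e h : M) : ℕ) := by
      unfold co
      rw [Nat.gcd_comm]
    rw [h3] at hd
    exact hd
  have hturan := hfree.card_edgeFinset_le
  simp only [Fintype.card_coe] at hturan
  set n := M.card with hn
  have h6 : 6 * G.edgeFinset.card ≤ 2 * n ^ 2 := by
    have hmod : n % 3 < 3 := Nat.mod_lt _ (by norm_num)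
    have hle : (n % 3) ^ 2 ≤ n ^ 2 := Nat.pow_le_pow_left (Nat.mod_le _ _) _
    have hdiv : (n ^ 2 - (n % 3) ^ 2) * (3 - 1) / (2 * 3) * 6 ≤ (n ^ 2 - (n % 3) ^ 2) * 2 :=
      Nat.div_mul_le_self _ _
    have hch : 6 * (n % 3).choose 2 ≤ 2 * (n % 3) ^ 2 := by
      rcases (by omega : n % 3 = 0 ∨ n % 3 = 1 ∨ n % 3 = 2) with h | h | h <;> rw [h] <;> decide
    omega
  have h7 : 2 * G.edgeFinset.card = (univ.filter (fun z : M × M => G.Adj z.1 z.2)).card :=
    G.two_mul_card_edgeFinset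
  have h8 : (M.offDiag.filter (fun z => ¬ Dense z.1 z.2)).card ≤
      (univ.filter (fun z : M × M => G.Adj z.1 z.2)).card := by
    have hsub : M.offDiag.filter (fun z => ¬ Dense z.1 z.2) ⊆
        (univ.filter (fun z : M × M => G.Adj z.1 z.2)).image (fun z => ((z.1 : ℕ), (z.2 : ℕ))) := by
      intro z hz
      obtain ⟨h1, h2⟩ := mem_filter.1 hz
      rw [mem_offDiag] at h1
      rw [mem_image]
      refine ⟨(⟨z.1, h1.1⟩, ⟨z.2, h1.2.1⟩), ?_, rfl⟩
      rw [mem_filter]
      exact ⟨mem_univ _, fun h => h1.2.2 (congrArg Subtype.val h), h2⟩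
    exact (card_le_card hsub).trans card_image_le
  have h9 := card_filter_add_card_filter_not (s := M.offDiag) (fun z => Dense z.1 z.2)
  have h10 : M.offDiag.card = n * n - n := by rw [offDiag_card]
  have h11 : n ≤ n * n := Nat.le_mul_self n
  have h12 : (((M.offDiag.filter (fun z => Dense z.1 z.2)).card : ℕ) : ℝ) +
      ((M.offDiag.filter (fun z => ¬ Dense z.1 z.2)).card : ℝ) = (n : ℝ) * n - n := by
    rw [← Nat.cast_add, h9, h10, Nat.cast_sub h11, Nat.cast_mul]
  have h13 : ((M.offDiag.filter (fun z => ¬ Dense z.1 z.2)).card : ℝ) ≤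
      2 * (G.edgeFinset.card : ℝ) := by
    rw [← h7] at h8
    exact_mod_cast h8
  have h14 : 6 * (G.edgeFinset.card : ℝ) ≤ 2 * (n : ℝ) ^ 2 := by exact_mod_cast h6
  nlinarith

end Pool.Agent.X65.Slopes
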