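import Mathlib

/-! Projective rectangles: planes and their sections with special lines. -/

set_option autoImplicit false

universe u

namespace Pool.Agent.X65.PR

/-- A projective rectangle with point set `P`: every line is the set of its points.  A line is
special if it contains the distinguished point `D`, and ordinary otherwise. -/
structure Rect (P : Type u) where
  /-- the lines -/
  lines : Set (Set P)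
  /-- the distinguished point -/
  D : P
  /-- two distinct points lie on exactly one line -/
  A1 : ∀ x y : P, x ≠ y → ∃! l : Set P, l ∈ lines ∧ x ∈ l ∧ y ∈ l
  /-- some four points have no three collinear -/
  A2 : ∃ a b c d : P, a ≠ b ∧ a ≠ c ∧ a ≠ d ∧ b ≠ c ∧ b ≠ d ∧ c ≠ d ∧ ∀ l ∈ lines,
    ¬ (a ∈ l ∧ b ∈ l ∧ c ∈ l) ∧ ¬ (a ∈ l ∧ b ∈ l ∧ d ∈ l) ∧ ¬ (a ∈ l ∧ c ∈ l ∧ d ∈ l) ∧
      ¬ (b ∈ l ∧ c ∈ l ∧ d ∈ l)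
  /-- every line has at least three points -/
  A3 : ∀ l ∈ lines, ∃ x y z : P, x ∈ l ∧ y ∈ l ∧ z ∈ l ∧ x ≠ y ∧ x ≠ z ∧ y ≠ z
  /-- a special line meets every other line in exactly one point -/
  A5 : ∀ s ∈ lines, D ∈ s → ∀ l ∈ lines, l ≠ s → ∃! x : P, x ∈ s ∧ x ∈ l
  /-- if two ordinary lines meet in a point, then two distinct lines that meet both of them in
  four distinct points meet -/
  A6 : ∀ l₁ ∈ lines, ∀ l₂ ∈ lines, D ∉ l₁ → D ∉ l₂ → l₁ ≠ l₂ → (l₁ ∩ l₂).Nonempty →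
    ∀ l₃ ∈ lines, ∀ l₄ ∈ lines, l₃ ≠ l₄ → ∀ a b c d : P, a ∈ l₁ → a ∈ l₃ → b ∈ l₂ → b ∈ l₃ →
      c ∈ l₁ → c ∈ l₄ → d ∈ l₂ → d ∈ l₄ → a ≠ b → a ≠ c → a ≠ d → b ≠ c → b ≠ d → c ≠ d →
      (l₃ ∩ l₄).Nonempty

/-- A set `S` of points and a family `Ls` of lines form a projective plane. -/
def IsProjPlane {P : Type u} (S : Set P) (Ls : Set (Set P)) : Prop :=
  (∀ x ∈ S, ∀ y ∈ S, x ≠ y → ∃! L : Set P, L ∈ Ls ∧ x ∈ L ∧ y ∈ L) ∧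
  (∀ L ∈ Ls, ∀ L' ∈ Ls, L ≠ L' → ∃! x : P, x ∈ L ∧ x ∈ L') ∧
  (∃ a ∈ S, ∃ b ∈ S, ∃ c ∈ S, ∃ d ∈ S, a ≠ b ∧ a ≠ c ∧ a ≠ d ∧ b ≠ c ∧ b ≠ d ∧ c ≠ d ∧
    ∀ L ∈ Ls, ¬ (a ∈ L ∧ b ∈ L ∧ c ∈ L) ∧ ¬ (a ∈ L ∧ b ∈ L ∧ d ∈ L) ∧
      ¬ (a ∈ L ∧ c ∈ L ∧ d ∈ L) ∧ ¬ (b ∈ L ∧ c ∈ L ∧ d ∈ L))

namespace Rect

variable {P : Type u} (R : Rect P)

/-- The rectangle is nontrivial: it is not a projective plane. -/
def Nontriv : Prop := ¬ IsProjPlane Set.univ R.lines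

/-- The lines of a set `S` of points: the sets `l ∩ S` with at least two points. -/
def linesOf (S : Set P) : Set (Set P) := {L | ∃ l ∈ R.lines, L = l ∩ S ∧ L.Nontrivial}

/-- `S` is a projective subplane. -/
def IsSubplane (S : Set P) : Prop := IsProjPlane S (R.linesOf S)

/-- A plane is a maximal projective subplane. -/
def IsPlane (S : Set P) : Prop := R.IsSubplane S ∧ ∀ S', R.IsSubplane S' → S ⊆ S' → S' = S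

/-! ### Basic facts -/

/-- ordinary lines -/
def Ord (l : Set P) : Prop := l ∈ R.lines ∧ R.D ∉ l

open Classical in
/-- the line through two points -/
noncomputable def ln (x y : P) : Set P :=
  if h : x ≠ y then Classical.choose (R.A1 x y h).exists else ∅

variable {R}

theorem ln_spec {x y : P} (h : x ≠ y) : R.ln x y ∈ R.lines ∧ x ∈ R.ln x y ∧ y ∈ R.ln x y := by
  unfold ln
  rw [dif_pos h]
  exact Classical.choose_spec (R.A1 x y h).exists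

theorem eq_of_two {l l' : Set P} (hl : l ∈ R.lines) (hl' : l' ∈ R.lines) {x y : P} (h : x ≠ y)
    (h1 : x ∈ l) (h2 : y ∈ l) (h3 : x ∈ l') (h4 : y ∈ l') : l = l' :=
  (R.A1 x y h).unique ⟨hl, h1, h2⟩ ⟨hl', h3, h4⟩

theorem pt_eq {l l' : Set P} (hl : l ∈ R.lines) (hl' : l' ∈ R.lines) (h : l ≠ l') {x y : P}
    (h1 : x ∈ l) (h2 : x ∈ l') (h3 : y ∈ l) (h4 : y ∈ l') : x = y := by
  by_contra hxy
  exact h (eq_of_two hl hl' hxy h1 h3 h2 h4)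

theorem ne_of_mem {l : Set P} {x y : P} (hx : x ∈ l) (hy : y ∉ l) : x ≠ y := by
  rintro rfl; exact hy hx

/-- a line through a point of a special line and a point off it is ordinary -/
theorem ord_of {s l : Set P} (hs : s ∈ R.lines) (hD : R.D ∈ s) {x y : P} (hx : x ∈ s)
    (hxD : x ≠ R.D) (hy : y ∉ s) (hl : l ∈ R.lines) (h1 : x ∈ l) (h2 : y ∈ l) : R.Ord l := by
  refine ⟨hl, fun hDl => hy ?_⟩
  rw [eq_of_two hs hl hxD hx hD h1 hDl]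
  exact h2

/-- special lines meet ordinary lines -/
theorem special_meet {s l : Set P} (hs : s ∈ R.lines) (hD : R.D ∈ s) (hl : R.Ord l) :
    ∃ x, x ∈ s ∧ x ∈ l := by
  have hne : l ≠ s := fun h => hl.2 (h ▸ hD)
  exact (R.A5 s hs hD l hl.1 hne).exists

/-- a third point on a line -/
theorem third {l : Set P} (hl : l ∈ R.lines) (x y : P) : ∃ z ∈ l, z ≠ x ∧ z ≠ y := by
  obtain ⟨a, b, c, ha, hb, hc, hab, hac, hbc⟩ := R.A3 l hl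
  by_cases h1 : a = x ∨ a = y
  · by_cases h2 : b = x ∨ b = y
    · refine ⟨c, hc, ?_, ?_⟩
      · rintro rfl
        rcases h1 with rfl | rfl
        · exact hac rfl
        · rcases h2 with rfl | rfl
          · exact hbc rfl
          · exact hab rfl
      · rintro rfl
        rcases h1 with rfl | rfl
        · rcases h2 with rfl | rfl
          · exact hab rfl
          · exact hbc rfl
        · exact hac rfl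
    · push Not at h2
      exact ⟨b, hb, h2.1, h2.2⟩
  · push Not at h1
    exact ⟨a, ha, h1.1, h1.2⟩

/-- Axiom (A6) with all degenerate cases. -/
theorem meet {l l' g h : Set P} (hl : R.Ord l) (hl' : R.Ord l') (hne : l ≠ l')
    (hm : (l ∩ l').Nonempty) (hg : g ∈ R.lines) (hh : h ∈ R.lines) {a b c d : P}
    (a1 : a ∈ l) (a2 : a ∈ g) (b1 : b ∈ l') (b2 : b ∈ g) (c1 : c ∈ l) (c2 : c ∈ h) (d1 : d ∈ l')
    (d2 : d ∈ h) (hab : a ≠ b) (hcd : c ≠ d) : (g ∩ h).Nonempty := by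
  by_cases hgh : g = h
  · subst hgh; exact ⟨a, a2, a2⟩
  by_cases h1 : a = c
  · subst h1; exact ⟨a, a2, c2⟩
  by_cases h2 : a = d
  · subst h2; exact ⟨a, a2, d2⟩
  by_cases h3 : b = c
  · subst h3; exact ⟨b, b2, c2⟩
  by_cases h4 : b = d
  · subst h4; exact ⟨b, b2, d2⟩
  exact R.A6 l hl.1 l' hl'.1 hl.2 hl'.2 hne hm g hg h hh hgh a b c d a1 a2 b1 b2 c1 c2 d1 d2
    hab h1 h2 h3 h4 hcd

/-! ### The plane of a triangle of ordinary lines -/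

variable (R) in
/-- three ordinary lines, pairwise meeting, without a common point -/
structure Tri (l₁ l₂ l₃ : Set P) : Prop where
  o1 : R.Ord l₁
  o2 : R.Ord l₂
  o3 : R.Ord l₃
  m12 : (l₁ ∩ l₂).Nonempty
  m13 : (l₁ ∩ l₃).Nonempty
  m23 : (l₂ ∩ l₃).Nonempty
  nc : ∀ x, x ∈ l₁ → x ∈ l₂ → x ∈ l₃ → False

theorem Tri.n12 {l₁ l₂ l₃ : Set P} (h : R.Tri l₁ l₂ l₃) : l₁ ≠ l₂ := by
  rintro rfl
  obtain ⟨x, h1, h2⟩ := h.m13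
  exact h.nc x h1 h1 h2

theorem Tri.n13 {l₁ l₂ l₃ : Set P} (h : R.Tri l₁ l₂ l₃) : l₁ ≠ l₃ := by
  rintro rfl
  obtain ⟨x, h1, h2⟩ := h.m12
  exact h.nc x h1 h2 h1

theorem Tri.n23 {l₁ l₂ l₃ : Set P} (h : R.Tri l₁ l₂ l₃) : l₂ ≠ l₃ := by
  rintro rfl
  obtain ⟨x, h1, h2⟩ := h.m12
  exact h.nc x h1 h2 h2

variable (R) in
/-- the ordinary lines that meet all three sides -/
def LL (l₁ l₂ l₃ : Set P) : Set (Set P) :=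
  {g | R.Ord g ∧ (g ∩ l₁).Nonempty ∧ (g ∩ l₂).Nonempty ∧ (g ∩ l₃).Nonempty}

variable (R) in
/-- the plane of a triangle -/
def Pl (l₁ l₂ l₃ : Set P) : Set P := {x | x = R.D ∨ ∃ g ∈ R.LL l₁ l₂ l₃, x ∈ g}

theorem self_nonempty {l : Set P} (h : R.Ord l) : (l ∩ l).Nonempty := by
  obtain ⟨x, y, z, hx, -⟩ := R.A3 l h.1
  exact ⟨x, hx, hx⟩

theorem Tri.L1 {l₁ l₂ l₃ : Set P} (h : R.Tri l₁ l₂ l₃) : l₁ ∈ R.LL l₁ l₂ l₃ :=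
  ⟨h.o1, self_nonempty h.o1, h.m12, h.m13⟩

theorem Tri.L2 {l₁ l₂ l₃ : Set P} (h : R.Tri l₁ l₂ l₃) : l₂ ∈ R.LL l₁ l₂ l₃ :=
  ⟨h.o2, by rw [Set.inter_comm]; exact h.m12, self_nonempty h.o2, h.m23⟩

theorem Tri.L3 {l₁ l₂ l₃ : Set P} (h : R.Tri l₁ l₂ l₃) : l₃ ∈ R.LL l₁ l₂ l₃ :=
  ⟨h.o3, by rw [Set.inter_comm]; exact h.m13, by rw [Set.inter_comm]; exact h.m23,
    self_nonempty h.o3⟩

/-- two lines of the plane meet -/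
theorem Tri.meet2 {l₁ l₂ l₃ : Set P} (h : R.Tri l₁ l₂ l₃) {g k : Set P}
    (hg : g ∈ R.LL l₁ l₂ l₃) (hk : k ∈ R.LL l₁ l₂ l₃) : (g ∩ k).Nonempty := by
  obtain ⟨og, ⟨g1, g1g, g1l⟩, ⟨g2, g2g, g2l⟩, ⟨g3, g3g, g3l⟩⟩ := hg
  obtain ⟨ok, ⟨k1, k1k, k1l⟩, ⟨k2, k2k, k2l⟩, ⟨k3, k3k, k3l⟩⟩ := hk
  by_cases e1 : g1 ≠ g2 ∧ k1 ≠ k2
  · exact meet h.o1 h.o2 h.n12 h.m12 og.1 ok.1 g1l g1g g2l g2g k1l k1k k2l k2k e1.1 e1.2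
  by_cases e2 : g1 ≠ g3 ∧ k1 ≠ k3
  · exact meet h.o1 h.o3 h.n13 h.m13 og.1 ok.1 g1l g1g g3l g3g k1l k1k k3l k3k e2.1 e2.2
  by_cases e3 : g2 ≠ g3 ∧ k2 ≠ k3
  · exact meet h.o2 h.o3 h.n23 h.m23 og.1 ok.1 g2l g2g g3l g3g k2l k2k k3l k3k e3.1 e3.2
  exfalso
  have ng : ¬ (g1 = g2 ∧ g1 = g3) := fun ⟨e, e'⟩ => h.nc g1 g1l (e ▸ g2l) (e' ▸ g3l)
  have nk : ¬ (k1 = k2 ∧ k1 = k3) := fun ⟨e, e'⟩ => h.nc k1 k1l (e ▸ k2l) (e' ▸ k3l)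
  rw [not_and_or, not_not, not_not] at e1 e2 e3
  rcases e1 with e1 | e1 <;> rcases e2 with e2 | e2 <;> rcases e3 with e3 | e3
  · exact ng ⟨e1, e2⟩
  · exact ng ⟨e1, e2⟩
  · exact ng ⟨e1, e1.trans e3⟩
  · exact nk ⟨e2.trans e3.symm, e2⟩
  · exact ng ⟨e2.trans e3.symm, e2⟩
  · exact nk ⟨e1, e1.trans e3⟩
  · exact nk ⟨e1, e2⟩
  · exact nk ⟨e1, e2⟩

/-- an ordinary line that meets two lines of the plane in two points belongs to the plane -/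
theorem Tri.mem_of {l₁ l₂ l₃ : Set P} (h : R.Tri l₁ l₂ l₃) {g h₁ h₂ : Set P} (hg : R.Ord g)
    (H1 : h₁ ∈ R.LL l₁ l₂ l₃) (H2 : h₂ ∈ R.LL l₁ l₂ l₃) {a b : P} (ag : a ∈ g) (a1 : a ∈ h₁)
    (bg : b ∈ g) (b2 : b ∈ h₂) (hab : a ≠ b) : g ∈ R.LL l₁ l₂ l₃ := by
  have key : ∀ k ∈ R.LL l₁ l₂ l₃, (g ∩ k).Nonempty := by
    intro k hk
    by_cases h12 : h₁ = h₂
    · subst h12
      rw [eq_of_two hg.1 H1.1.1 hab ag bg a1 b2]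
      exact h.meet2 H1 hk
    have hm := h.meet2 H1 H2
    have first : ∀ k' ∈ R.LL l₁ l₂ l₃, (∀ v, v ∈ h₁ → v ∈ h₂ → v ∉ k') → (g ∩ k').Nonempty := by
      intro k' hk' hv
      obtain ⟨c, c1, c2⟩ := h.meet2 H1 hk'
      obtain ⟨d, d1, d2⟩ := h.meet2 H2 hk'
      refine meet H1.1 H2.1 h12 hm hg.1 hk'.1.1 a1 ag b2 bg c1 c2 d1 d2 hab ?_
      rintro rfl
      exact hv c c1 d1 c2
    obtain ⟨v, v1, v2⟩ := hm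
    have hvu : ∀ w, w ∈ h₁ → w ∈ h₂ → w = v := fun w w1 w2 => pt_eq H1.1.1 H2.1.1 h12 w1 w2 v1 v2
    by_cases hvk : v ∈ k
    · -- a side not through `v`
      obtain ⟨k', hk', hvk'⟩ : ∃ k' ∈ R.LL l₁ l₂ l₃, v ∉ k' := by
        by_contra hno
        push Not at hno
        exact h.nc v (hno _ h.L1) (hno _ h.L2) (hno _ h.L3)
      obtain ⟨w, wg, wk⟩ := first k' hk' (fun v' h1 h2 => hvu v' h1 h2 ▸ hvk')
      obtain ⟨z, zk, zk'⟩ := h.meet2 hk hk'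
      have hvz : v ≠ z := fun e => hvk' (e ▸ zk')
      by_cases haw : a = w
      · subst haw
        refine meet H2.1 hk'.1 (fun e => hvk' (e ▸ v2)) (h.meet2 H2 hk') hg.1 hk.1.1 b2 bg wk ag
          v2 hvk zk' zk (Ne.symm hab) hvz
      · exact meet H1.1 hk'.1 (fun e => hvk' (e ▸ v1)) (h.meet2 H1 hk') hg.1 hk.1.1 a1 ag wk wg
          v1 hvk zk' zk haw hvz
    · exact first k hk (fun v' h1 h2 => hvu v' h1 h2 ▸ hvk)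
  exact ⟨hg, key _ h.L1, key _ h.L2, key _ h.L3⟩

theorem Tri.line_mem {l₁ l₂ l₃ : Set P} (h : R.Tri l₁ l₂ l₃) {g : Set P} (hg : R.Ord g) {x y : P}
    (hx : x ∈ R.Pl l₁ l₂ l₃) (hy : y ∈ R.Pl l₁ l₂ l₃) (hxy : x ≠ y) (xg : x ∈ g) (yg : y ∈ g) :
    g ∈ R.LL l₁ l₂ l₃ := by
  rcases hx with rfl | ⟨h₁, H1, x1⟩
  · exact absurd xg hg.2
  rcases hy with rfl | ⟨h₂, H2, y2⟩
  · exact absurd yg hg.2
  exact h.mem_of hg H1 H2 xg x1 yg y2 hxy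

theorem LL_sub {l₁ l₂ l₃ g : Set P} (hg : g ∈ R.LL l₁ l₂ l₃) : g ⊆ R.Pl l₁ l₂ l₃ :=
  fun _ hx => Or.inr ⟨g, hg, hx⟩

theorem Tri.two_points {l₁ l₂ l₃ : Set P} (h : R.Tri l₁ l₂ l₃) : ∃ a b c d : P, a ∈ l₁ ∧ b ∈ l₁ ∧
    c ∈ l₂ ∧ d ∈ l₂ ∧ a ∉ l₂ ∧ b ∉ l₂ ∧ c ∉ l₁ ∧ d ∉ l₁ ∧ a ≠ b ∧ c ≠ d := by
  obtain ⟨v, v1, v2⟩ := h.m12
  obtain ⟨a, ha, hav, -⟩ := third h.o1.1 v v
  obtain ⟨b, hb, hbv, hba⟩ := third h.o1.1 v a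
  obtain ⟨c, hc, hcv, -⟩ := third h.o2.1 v v
  obtain ⟨d, hd, hdv, hdc⟩ := third h.o2.1 v c
  refine ⟨a, b, c, d, ha, hb, hc, hd, ?_, ?_, ?_, ?_, hba.symm, hdc.symm⟩
  · exact fun h' => hav (pt_eq h.o1.1 h.o2.1 h.n12 ha h' v1 v2)
  · exact fun h' => hbv (pt_eq h.o1.1 h.o2.1 h.n12 hb h' v1 v2)
  · exact fun h' => hcv (pt_eq h.o1.1 h.o2.1 h.n12 h' hc v1 v2)
  · exact fun h' => hdv (pt_eq h.o1.1 h.o2.1 h.n12 h' hd v1 v2)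

/-- the traces of two lines are equal only if the lines are -/
theorem trace_inj {S l l' : Set P} (hl : l ∈ R.lines) (hl' : l' ∈ R.lines)
    (hn : (l ∩ S).Nontrivial) (h : l ∩ S = l' ∩ S) : l = l' := by
  obtain ⟨x, hx, y, hy, hxy⟩ := hn
  have hx' : x ∈ l' ∩ S := h ▸ hx
  have hy' : y ∈ l' ∩ S := h ▸ hy
  exact eq_of_two hl hl' hxy hx.1 hy.1 hx'.1 hy'.1

theorem Tri.isSubplane {l₁ l₂ l₃ : Set P} (h : R.Tri l₁ l₂ l₃) : R.IsSubplane (R.Pl l₁ l₂ l₃) := by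
  refine ⟨?_, ?_, ?_⟩
  · intro x hx y hy hxy
    obtain ⟨h1, h2, h3⟩ := ln_spec (R := R) hxy
    refine ⟨R.ln x y ∩ R.Pl l₁ l₂ l₃, ⟨⟨R.ln x y, h1, rfl, x, ⟨h2, hx⟩, y, ⟨h3, hy⟩, hxy⟩,
      ⟨h2, hx⟩, ⟨h3, hy⟩⟩, ?_⟩
    rintro L ⟨⟨l, hl, rfl, -⟩, hxL, hyL⟩
    rw [eq_of_two hl h1 hxy hxL.1 hyL.1 h2 h3]
  · rintro L ⟨l, hl, rfl, hn⟩ L' ⟨l', hl', rfl, hn'⟩ hne
    have hll : l ≠ l' := fun e => hne (by rw [e])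
    have hex : ∃ x, x ∈ l ∩ R.Pl l₁ l₂ l₃ ∧ x ∈ l' ∩ R.Pl l₁ l₂ l₃ := by
      have aux : ∀ m ∈ R.lines, R.D ∉ m → (m ∩ R.Pl l₁ l₂ l₃).Nontrivial →
          m ∈ R.LL l₁ l₂ l₃ := by
        rintro m hm hD ⟨x, hx, y, hy, hxy⟩
        exact h.line_mem ⟨hm, hD⟩ hx.2 hy.2 hxy hx.1 hy.1
      by_cases hD : R.D ∈ l <;> by_cases hD' : R.D ∈ l'
      · exact ⟨R.D, ⟨hD, Or.inl rfl⟩, ⟨hD', Or.inl rfl⟩⟩
      · have hm := aux l' hl' hD' hn'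
        obtain ⟨x, h1, h2⟩ := special_meet hl hD hm.1
        exact ⟨x, ⟨h1, LL_sub hm h2⟩, ⟨h2, LL_sub hm h2⟩⟩
      · have hm := aux l hl hD hn
        obtain ⟨x, h1, h2⟩ := special_meet hl' hD' hm.1
        exact ⟨x, ⟨h2, LL_sub hm h2⟩, ⟨h1, LL_sub hm h2⟩⟩
      · have hm := aux l hl hD hn
        have hm' := aux l' hl' hD' hn'
        obtain ⟨x, h1, h2⟩ := h.meet2 hm hm'
        exact ⟨x, ⟨h1, LL_sub hm h1⟩, ⟨h2, LL_sub hm h1⟩⟩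
    obtain ⟨x, hx1, hx2⟩ := hex
    exact ⟨x, ⟨hx1, hx2⟩, fun y hy => pt_eq hl hl' hll hy.1.1 hy.2.1 hx1.1 hx2.1⟩
  · obtain ⟨a, b, c, d, ha, hb, hc, hd, ha2, hb2, hc1, hd1, hab, hcd⟩ := h.two_points
    refine ⟨a, LL_sub h.L1 ha, b, LL_sub h.L1 hb, c, LL_sub h.L2 hc, d, LL_sub h.L2 hd, hab,
      ne_of_mem ha hc1, ne_of_mem ha hd1, ne_of_mem hb hc1, ne_of_mem hb hd1, hcd, ?_⟩
    rintro L ⟨l, hl, rfl, -⟩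
    refine ⟨?_, ?_, ?_, ?_⟩
    · rintro ⟨h1, h2, h3⟩
      exact hc1 (eq_of_two hl h.o1.1 hab h1.1 h2.1 ha hb ▸ h3.1)
    · rintro ⟨h1, h2, h3⟩
      exact hd1 (eq_of_two hl h.o1.1 hab h1.1 h2.1 ha hb ▸ h3.1)
    · rintro ⟨h1, h2, h3⟩
      exact ha2 (eq_of_two hl h.o2.1 hcd h2.1 h3.1 hc hd ▸ h1.1)
    · rintro ⟨h1, h2, h3⟩
      exact hb2 (eq_of_two hl h.o2.1 hcd h2.1 h3.1 hc hd ▸ h1.1)

/-! ### Classification of planes -/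

theorem IsSubplane.quad {S : Set P} (h : R.IsSubplane S) : ∃ a ∈ S, ∃ b ∈ S, ∃ c ∈ S, ∃ d ∈ S,
    a ≠ b ∧ a ≠ c ∧ a ≠ d ∧ b ≠ c ∧ b ≠ d ∧ c ≠ d ∧
    ∀ l ∈ R.lines, ¬ (a ∈ l ∧ b ∈ l ∧ c ∈ l) ∧ ¬ (a ∈ l ∧ b ∈ l ∧ d ∈ l) ∧
      ¬ (a ∈ l ∧ c ∈ l ∧ d ∈ l) ∧ ¬ (b ∈ l ∧ c ∈ l ∧ d ∈ l) := by
  obtain ⟨-, -, a, ha, b, hb, c, hc, d, hd, hab, hac, had, hbc, hbd, hcd, H⟩ := h
  refine ⟨a, ha, b, hb, c, hc, d, hd, hab, hac, had, hbc, hbd, hcd, fun l hl => ?_⟩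
  refine ⟨?_, ?_, ?_, ?_⟩
  · rintro ⟨h1, h2, h3⟩
    exact (H (l ∩ S) ⟨l, hl, rfl, a, ⟨h1, ha⟩, b, ⟨h2, hb⟩, hab⟩).1 ⟨⟨h1, ha⟩, ⟨h2, hb⟩, ⟨h3, hc⟩⟩
  · rintro ⟨h1, h2, h3⟩
    exact (H (l ∩ S) ⟨l, hl, rfl, a, ⟨h1, ha⟩, b, ⟨h2, hb⟩, hab⟩).2.1
      ⟨⟨h1, ha⟩, ⟨h2, hb⟩, ⟨h3, hd⟩⟩
  · rintro ⟨h1, h2, h3⟩
    exact (H (l ∩ S) ⟨l, hl, rfl, a, ⟨h1, ha⟩, c, ⟨h2, hc⟩, hac⟩).2.2.1
      ⟨⟨h1, ha⟩, ⟨h2, hc⟩, ⟨h3, hd⟩⟩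
  · rintro ⟨h1, h2, h3⟩
    exact (H (l ∩ S) ⟨l, hl, rfl, b, ⟨h1, hb⟩, c, ⟨h2, hc⟩, hbc⟩).2.2.2
      ⟨⟨h1, hb⟩, ⟨h2, hc⟩, ⟨h3, hd⟩⟩

theorem line_nonempty {l : Set P} (h : l ∈ R.lines) : (l ∩ l).Nonempty := by
  obtain ⟨x, y, z, hx, -⟩ := R.A3 l h
  exact ⟨x, hx, hx⟩

/-- two lines of a subplane meet -/
theorem IsSubplane.meet {S : Set P} (h : R.IsSubplane S) {l l' : Set P} (hl : l ∈ R.lines)
    (hl' : l' ∈ R.lines) (hn : (l ∩ S).Nontrivial) (hn' : (l' ∩ S).Nontrivial) :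
    (l ∩ l').Nonempty := by
  by_cases e : l ∩ S = l' ∩ S
  · rw [trace_inj hl hl' hn e]
    exact line_nonempty hl'
  · obtain ⟨x, hx, -⟩ := h.2.1 _ ⟨l, hl, rfl, hn⟩ _ ⟨l', hl', rfl, hn'⟩ e
    exact ⟨x, hx.1.1, hx.2.1⟩

theorem IsSubplane.sub {S : Set P} (h : R.IsSubplane S) {l₁ l₂ l₃ : Set P} (o1 : l₁ ∈ R.lines)
    (o2 : l₂ ∈ R.lines) (o3 : l₃ ∈ R.lines)
    (h1 : (l₁ ∩ S).Nontrivial) (h2 : (l₂ ∩ S).Nontrivial) (h3 : (l₃ ∩ S).Nontrivial) :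
    S ⊆ R.Pl l₁ l₂ l₃ := by
  intro x hx
  by_cases hxD : x = R.D
  · exact Or.inl hxD
  obtain ⟨a, ha, b, hb, c, hc, d, hd, hab, hac, had, hbc, hbd, hcd, H⟩ := h.quad
  have hxD' : R.D ≠ x := Ne.symm hxD
  obtain ⟨hs, hsD, hsx⟩ := ln_spec (R := R) hxD'
  obtain ⟨y, hy, hys⟩ : ∃ y ∈ S, y ∉ R.ln R.D x := by
    by_contra hno
    push Not at hno
    exact (H _ hs).1 ⟨hno a ha, hno b hb, hno c hc⟩
  have hxy : x ≠ y := ne_of_mem hsx hys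
  obtain ⟨hg, hgx, hgy⟩ := ln_spec (R := R) hxy
  have hgo : R.Ord (R.ln x y) := ord_of hs hsD hsx hxD hys hg hgx hgy
  have hgn : (R.ln x y ∩ S).Nontrivial := ⟨x, ⟨hgx, hx⟩, y, ⟨hgy, hy⟩, hxy⟩
  exact Or.inr ⟨R.ln x y, ⟨hgo, h.meet hg o1 hgn h1, h.meet hg o2 hgn h2, h.meet hg o3 hgn h3⟩,
    hgx⟩

theorem Tri.isPlane {l₁ l₂ l₃ : Set P} (h : R.Tri l₁ l₂ l₃) : R.IsPlane (R.Pl l₁ l₂ l₃) := by
  refine ⟨h.isSubplane, fun S' hS' hsub => ?_⟩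
  have aux : ∀ l ∈ R.LL l₁ l₂ l₃, (l ∩ S').Nontrivial := by
    intro l hl
    obtain ⟨x, hx, -⟩ := third hl.1.1 R.D R.D
    obtain ⟨y, hy, hyx, -⟩ := third hl.1.1 x x
    exact ⟨x, ⟨hx, hsub (LL_sub hl hx)⟩, y, ⟨hy, hsub (LL_sub hl hy)⟩, hyx.symm⟩
  exact Set.Subset.antisymm
    (hS'.sub h.o1.1 h.o2.1 h.o3.1 (aux _ h.L1) (aux _ h.L2) (aux _ h.L3)) hsub

/-- a triangle of `S` whose sides are ordinary -/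
theorem tri_of_three {a b c : P} (hab : a ≠ b) (hac : a ≠ c) (hbc : b ≠ c)
    (H : ∀ l ∈ R.lines, ¬ (a ∈ l ∧ b ∈ l ∧ c ∈ l)) (d1 : R.D ∉ R.ln a b) (d2 : R.D ∉ R.ln a c)
    (d3 : R.D ∉ R.ln b c) : R.Tri (R.ln a b) (R.ln a c) (R.ln b c) := by
  obtain ⟨x1, x2, x3⟩ := ln_spec (R := R) hab
  obtain ⟨y1, y2, y3⟩ := ln_spec (R := R) hac
  obtain ⟨z1, z2, z3⟩ := ln_spec (R := R) hbc
  refine ⟨⟨x1, d1⟩, ⟨y1, d2⟩, ⟨z1, d3⟩, ⟨a, x2, y2⟩, ⟨b, x3, z2⟩, ⟨c, y3, z3⟩, ?_⟩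
  intro x hx1 hx2 hx3
  have hne : R.ln a b ≠ R.ln a c := fun e => H _ x1 ⟨x2, x3, e ▸ y3⟩
  have e := pt_eq x1 y1 hne hx1 hx2 x2 y2
  subst e
  exact H _ z1 ⟨hx3, z2, z3⟩

/-- a quadrangle with `D` on `ab` -/
theorem tri_of_quad {S : Set P} (h : R.IsSubplane S) {a b c d : P} (ha : a ∈ S) (hb : b ∈ S)
    (hc : c ∈ S) (hd : d ∈ S) (hab : a ≠ b) (hac : a ≠ c) (had : a ≠ d) (hbc : b ≠ c)
    (Habc : ∀ l ∈ R.lines, ¬ (a ∈ l ∧ b ∈ l ∧ c ∈ l))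
    (Habd : ∀ l ∈ R.lines, ¬ (a ∈ l ∧ b ∈ l ∧ d ∈ l))
    (Hacd : ∀ l ∈ R.lines, ¬ (a ∈ l ∧ c ∈ l ∧ d ∈ l)) (hDa : R.D ≠ a) (hDb : R.D ≠ b)
    (hD : R.D ∈ R.ln a b) : R.Tri (R.ln a c) (R.ln a d) (R.ln b c) := by
  obtain ⟨w1, w2, w3⟩ := ln_spec (R := R) hab
  obtain ⟨x1, x2, x3⟩ := ln_spec (R := R) hac
  obtain ⟨y1, y2, y3⟩ := ln_spec (R := R) had
  obtain ⟨z1, z2, z3⟩ := ln_spec (R := R) hbc
  have d1 : R.D ∉ R.ln a c := fun e =>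
    Habc _ w1 ⟨w2, w3, by rw [eq_of_two w1 x1 hDa hD w2 e x2]; exact x3⟩
  have d2 : R.D ∉ R.ln a d := fun e =>
    Habd _ w1 ⟨w2, w3, by rw [eq_of_two w1 y1 hDa hD w2 e y2]; exact y3⟩
  have d3 : R.D ∉ R.ln b c := fun e =>
    Habc _ w1 ⟨w2, w3, by rw [eq_of_two w1 z1 hDb hD w3 e z2]; exact z3⟩
  refine ⟨⟨x1, d1⟩, ⟨y1, d2⟩, ⟨z1, d3⟩, ⟨a, x2, y2⟩, ⟨c, x3, z3⟩,
    h.meet y1 z1 ⟨a, ⟨y2, ha⟩, d, ⟨y3, hd⟩, had⟩ ⟨b, ⟨z2, hb⟩, c, ⟨z3, hc⟩, hbc⟩, ?_⟩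
  intro x hx1 hx2 hx3
  have hne : R.ln a c ≠ R.ln a d := fun e => Hacd _ x1 ⟨x2, x3, e ▸ y3⟩
  have e := pt_eq x1 y1 hne hx1 hx2 x2 y2
  subst e
  exact Habc _ z1 ⟨hx3, z2, z3⟩

/-- every subplane has a triangle of ordinary lines -/
theorem IsSubplane.exists_tri {S : Set P} (h : R.IsSubplane S) : ∃ l₁ l₂ l₃ : Set P,
    R.Tri l₁ l₂ l₃ ∧ (l₁ ∩ S).Nontrivial ∧ (l₂ ∩ S).Nontrivial ∧ (l₃ ∩ S).Nontrivial := by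
  obtain ⟨a, ha, b, hb, c, hc, d, hd, hab, hac, had, hbc, hbd, hcd, H⟩ := h.quad
  have nt : ∀ x ∈ S, ∀ y ∈ S, x ≠ y → (R.ln x y ∩ S).Nontrivial := by
    intro x hx y hy hxy
    obtain ⟨-, h2, h3⟩ := ln_spec (R := R) hxy
    exact ⟨x, ⟨h2, hx⟩, y, ⟨h3, hy⟩, hxy⟩
  have lnD : ∀ x y z : P, x ≠ y → z ≠ y → x ≠ z → (∀ l ∈ R.lines, ¬ (x ∈ l ∧ y ∈ l ∧ z ∈ l)) →
      z ∉ R.ln x y := by
    intro x y z hxy _ _ H' hz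
    obtain ⟨h1, h2, h3⟩ := ln_spec (R := R) hxy
    exact H' _ h1 ⟨h2, h3, hz⟩
  by_cases eA : R.D = a
  · refine ⟨_, _, _, tri_of_three hbc hbd hcd (fun l hl => (H l hl).2.2.2) ?_ ?_ ?_,
      nt _ hb _ hc hbc, nt _ hb _ hd hbd, nt _ hc _ hd hcd⟩
    · rw [eA]
      exact lnD _ _ _ hbc hac hab.symm (fun l hl e => (H l hl).1 ⟨e.2.2, e.1, e.2.1⟩)
    · rw [eA]
      exact lnD _ _ _ hbd had hab.symm (fun l hl e => (H l hl).2.1 ⟨e.2.2, e.1, e.2.1⟩)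
    · rw [eA]
      exact lnD _ _ _ hcd had hac.symm (fun l hl e => (H l hl).2.2.1 ⟨e.2.2, e.1, e.2.1⟩)
  by_cases eB : R.D = b
  · refine ⟨_, _, _, tri_of_three hac had hcd (fun l hl => (H l hl).2.2.1) ?_ ?_ ?_,
      nt _ ha _ hc hac, nt _ ha _ hd had, nt _ hc _ hd hcd⟩
    · rw [eB]
      exact lnD _ _ _ hac hbc hab (fun l hl e => (H l hl).1 ⟨e.1, e.2.2, e.2.1⟩)
    · rw [eB]
      exact lnD _ _ _ had hbd hab (fun l hl e => (H l hl).2.1 ⟨e.1, e.2.2, e.2.1⟩)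
    · rw [eB]
      exact lnD _ _ _ hcd hbd hbc.symm (fun l hl e => (H l hl).2.2.2 ⟨e.2.2, e.1, e.2.1⟩)
  by_cases eC : R.D = c
  · refine ⟨_, _, _, tri_of_three hab had hbd (fun l hl => (H l hl).2.1) ?_ ?_ ?_,
      nt _ ha _ hb hab, nt _ ha _ hd had, nt _ hb _ hd hbd⟩
    · rw [eC]
      exact lnD _ _ _ hab hbc.symm hac (fun l hl e => (H l hl).1 ⟨e.1, e.2.1, e.2.2⟩)
    · rw [eC]
      exact lnD _ _ _ had hcd hac (fun l hl e => (H l hl).2.2.1 ⟨e.1, e.2.2, e.2.1⟩)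
    · rw [eC]
      exact lnD _ _ _ hbd hcd hbc (fun l hl e => (H l hl).2.2.2 ⟨e.1, e.2.2, e.2.1⟩)
  by_cases h1 : R.D ∈ R.ln a b
  · exact ⟨_, _, _, tri_of_quad h ha hb hc hd hab hac had hbc (fun l hl => (H l hl).1)
      (fun l hl => (H l hl).2.1) (fun l hl => (H l hl).2.2.1) eA eB h1, nt _ ha _ hc hac,
      nt _ ha _ hd had, nt _ hb _ hc hbc⟩
  by_cases h2 : R.D ∈ R.ln a c
  · exact ⟨_, _, _, tri_of_quad h ha hc hb hd hac hab had hbc.symm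
      (fun l hl e => (H l hl).1 ⟨e.1, e.2.2, e.2.1⟩)
      (fun l hl => (H l hl).2.2.1) (fun l hl => (H l hl).2.1) eA eC h2, nt _ ha _ hb hab,
      nt _ ha _ hd had, nt _ hc _ hb hbc.symm⟩
  by_cases h3 : R.D ∈ R.ln b c
  · exact ⟨_, _, _, tri_of_quad h hb hc ha hd hbc hab.symm hbd hac.symm
      (fun l hl e => (H l hl).1 ⟨e.2.2, e.1, e.2.1⟩)
      (fun l hl => (H l hl).2.2.2) (fun l hl e => (H l hl).2.1 ⟨e.2.1, e.1, e.2.2⟩) eB eC h3,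
      nt _ hb _ ha hab.symm, nt _ hb _ hd hbd, nt _ hc _ ha hac.symm⟩
  exact ⟨_, _, _, tri_of_three hab hac hbc (fun l hl => (H l hl).1) h1 h2 h3, nt _ ha _ hb hab,
    nt _ ha _ hc hac, nt _ hb _ hc hbc⟩

variable (R) in
/-- the planes are the sets generated by triangles of ordinary lines -/
def Good (π : Set P) : Prop := ∃ l₁ l₂ l₃ : Set P, R.Tri l₁ l₂ l₃ ∧ π = R.Pl l₁ l₂ l₃

theorem isPlane_iff {π : Set P} : R.IsPlane π ↔ R.Good π := by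
  constructor
  · rintro ⟨h, hmax⟩
    obtain ⟨l₁, l₂, l₃, ht, h1, h2, h3⟩ := h.exists_tri
    exact ⟨l₁, l₂, l₃, ht,
      (hmax _ ht.isSubplane (h.sub ht.o1.1 ht.o2.1 ht.o3.1 h1 h2 h3)).symm⟩
  · rintro ⟨l₁, l₂, l₃, ht, rfl⟩
    exact ht.isPlane

/-! ### Properties of planes -/

theorem Good.D_mem {π : Set P} (h : R.Good π) : R.D ∈ π := by
  obtain ⟨l₁, l₂, l₃, ht, rfl⟩ := h
  exact Or.inl rfl

theorem Good.line {π : Set P} (h : R.Good π) {g : Set P} (hg : R.Ord g) {x y : P} (hx : x ∈ π)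
    (hy : y ∈ π) (hxy : x ≠ y) (xg : x ∈ g) (yg : y ∈ g) : g ⊆ π := by
  obtain ⟨l₁, l₂, l₃, ht, rfl⟩ := h
  exact LL_sub (ht.line_mem hg hx hy hxy xg yg)

theorem two_on {l : Set P} (h : l ∈ R.lines) : ∃ x y : P, x ∈ l ∧ y ∈ l ∧ x ≠ y := by
  obtain ⟨x, y, z, hx, hy, hz, hxy, -⟩ := R.A3 l h
  exact ⟨x, y, hx, hy, hxy⟩

theorem Good.meet {π : Set P} (h : R.Good π) {g k : Set P} (hg : R.Ord g) (hk : R.Ord k)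
    (g1 : g ⊆ π) (k1 : k ⊆ π) : (g ∩ k).Nonempty := by
  obtain ⟨l₁, l₂, l₃, ht, rfl⟩ := h
  obtain ⟨x, y, hx, hy, hxy⟩ := two_on hg.1
  obtain ⟨z, w, hz, hw, hzw⟩ := two_on hk.1
  exact ht.meet2 (ht.line_mem hg (g1 hx) (g1 hy) hxy hx hy)
    (ht.line_mem hk (k1 hz) (k1 hw) hzw hz hw)

/-- a point on an ordinary line off two given lines -/
theorem off_two {g a b : Set P} (hg : g ∈ R.lines) (ha : a ∈ R.lines) (hb : b ∈ R.lines)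
    (hga : g ≠ a) (hgb : g ≠ b) : ∃ y ∈ g, y ∉ a ∧ y ∉ b := by
  by_cases h1 : (g ∩ a).Nonempty
  · obtain ⟨v, v1, v2⟩ := h1
    by_cases h2 : (g ∩ b).Nonempty
    · obtain ⟨w, w1, w2⟩ := h2
      obtain ⟨y, hy, hyv, hyw⟩ := third hg v w
      exact ⟨y, hy, fun e => hyv (pt_eq hg ha hga hy e v1 v2),
        fun e => hyw (pt_eq hg hb hgb hy e w1 w2)⟩
    · obtain ⟨y, hy, hyv, -⟩ := third hg v v
      exact ⟨y, hy, fun e => hyv (pt_eq hg ha hga hy e v1 v2), fun e => h2 ⟨y, hy, e⟩⟩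
  · by_cases h2 : (g ∩ b).Nonempty
    · obtain ⟨w, w1, w2⟩ := h2
      obtain ⟨y, hy, hyw, -⟩ := third hg w w
      exact ⟨y, hy, fun e => h1 ⟨y, hy, e⟩, fun e => hyw (pt_eq hg hb hgb hy e w1 w2)⟩
    · obtain ⟨y, -, hy, -⟩ := two_on hg
      exact ⟨y, hy, fun e => h1 ⟨y, hy, e⟩, fun e => h2 ⟨y, hy, e⟩⟩

theorem Ord.ne_special {g s : Set P} (hg : R.Ord g) (hD : R.D ∈ s) : g ≠ s :=
  fun e => hg.2 (e ▸ hD)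

theorem Good.sub_of {π ρ : Set P} (h : R.Good π) (h' : R.Good ρ) {g k : Set P} (hg : R.Ord g)
    (hk : R.Ord k) (hne : g ≠ k) (g1 : g ⊆ π) (k1 : k ⊆ π) (g2 : g ⊆ ρ) (k2 : k ⊆ ρ) :
    π ⊆ ρ := by
  intro x hx
  by_cases hxD : x = R.D
  · rw [hxD]; exact h'.D_mem
  obtain ⟨hs, hsD, hsx⟩ := ln_spec (R := R) (Ne.symm hxD)
  obtain ⟨y, hy, hys, hyk⟩ := off_two hg.1 hs hk.1 (hg.ne_special hsD) hne
  have hxy : x ≠ y := ne_of_mem hsx hys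
  obtain ⟨hl, hlx, hly⟩ := ln_spec (R := R) hxy
  have ho : R.Ord (R.ln x y) := ord_of hs hsD hsx hxD hys hl hlx hly
  have hlπ := h.line ho hx (g1 hy) hxy hlx hly
  obtain ⟨z, hz, hzk⟩ := h.meet ho hk hlπ k1
  exact h'.line ho (g2 hy) (k2 hzk) (fun e => hyk (e ▸ hzk)) hly hz hlx

theorem Good.eq_of {π ρ : Set P} (h : R.Good π) (h' : R.Good ρ) {g k : Set P} (hg : R.Ord g)
    (hk : R.Ord k) (hne : g ≠ k) (g1 : g ⊆ π) (k1 : k ⊆ π) (g2 : g ⊆ ρ) (k2 : k ⊆ ρ) :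
    π = ρ :=
  Set.Subset.antisymm (h.sub_of h' hg hk hne g1 k1 g2 k2) (h'.sub_of h hg hk hne g2 k2 g1 k1)

/-- two distinct meeting ordinary lines lie in a plane -/
theorem exists_good {l l' : Set P} (hl : R.Ord l) (hl' : R.Ord l') (hne : l ≠ l')
    (hm : (l ∩ l').Nonempty) : ∃ π, R.Good π ∧ l ⊆ π ∧ l' ⊆ π := by
  obtain ⟨v, v1, v2⟩ := hm
  obtain ⟨y, hy, hyv, -⟩ := third hl.1 v v
  have hyD : R.D ≠ y := fun e => hl.2 (e ▸ hy)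
  obtain ⟨hs, hsD, hsy⟩ := ln_spec (R := R) hyD
  obtain ⟨y', hy', hys, hyl⟩ := off_two hl'.1 hs hl.1 (hl'.ne_special hsD) hne.symm
  have hyy : y ≠ y' := ne_of_mem hsy hys
  obtain ⟨hg, hgy, hgy'⟩ := ln_spec (R := R) hyy
  have ho : R.Ord (R.ln y y') := ord_of hs hsD hsy hyD.symm hys hg hgy hgy'
  have hgl : R.ln y y' ≠ l := fun e => hyl (e ▸ hgy')
  have ht : R.Tri l l' (R.ln y y') := by
    refine ⟨hl, hl', ho, ⟨v, v1, v2⟩, ⟨y, hy, hgy⟩, ⟨y', hy', hgy'⟩, ?_⟩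
    intro x x1 x2 x3
    have e1 : x = v := pt_eq hl.1 hl'.1 hne x1 x2 v1 v2
    have e2 : x = y := pt_eq hg hl.1 hgl x3 x1 hgy hy
    exact hyv (e2.symm.trans e1)
  exact ⟨_, ⟨_, _, _, ht, rfl⟩, LL_sub ht.L1, LL_sub ht.L2⟩

/-- a plane contains an ordinary line -/
theorem Good.exists_ord {π : Set P} (h : R.Good π) : ∃ g, R.Ord g ∧ g ⊆ π := by
  obtain ⟨l₁, l₂, l₃, ht, rfl⟩ := h
  exact ⟨l₁, ht.o1, LL_sub ht.L1⟩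

/-- a plane meets a special line in two ordinary points -/
theorem Good.two_special {π : Set P} (h : R.Good π) {s : Set P} (hs : s ∈ R.lines)
    (hD : R.D ∈ s) : ∃ p p' : P, p ≠ p' ∧ p ≠ R.D ∧ p' ≠ R.D ∧ p ∈ s ∧ p' ∈ s ∧ p ∈ π ∧
      p' ∈ π := by
  obtain ⟨l₁, l₂, l₃, ht, rfl⟩ := h
  obtain ⟨x₁, s1, m1⟩ := special_meet hs hD ht.o1
  obtain ⟨x₂, s2, m2⟩ := special_meet hs hD ht.o2
  obtain ⟨x₃, s3, m3⟩ := special_meet hs hD ht.o3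
  have n1 : x₁ ≠ R.D := fun e => ht.o1.2 (e ▸ m1)
  have n2 : x₂ ≠ R.D := fun e => ht.o2.2 (e ▸ m2)
  have n3 : x₃ ≠ R.D := fun e => ht.o3.2 (e ▸ m3)
  by_cases h12 : x₁ = x₂
  · by_cases h13 : x₁ = x₃
    · subst h12; subst h13
      exact absurd m3 (fun m3 => ht.nc _ m1 m2 m3)
    · exact ⟨x₁, x₃, h13, n1, n3, s1, s3, LL_sub ht.L1 m1, LL_sub ht.L3 m3⟩
  · exact ⟨x₁, x₂, h12, n1, n2, s1, s2, LL_sub ht.L1 m1, LL_sub ht.L2 m2⟩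

/-- two planes with two common points on a special line have no common point off it -/
theorem Good.inter_sub {π ρ : Set P} (h : R.Good π) (h' : R.Good ρ) (hne : π ≠ ρ) {s : Set P}
    (hs : s ∈ R.lines) (hD : R.D ∈ s) {p p' : P} (hpp : p ≠ p') (hpD : p ≠ R.D)
    (hpD' : p' ≠ R.D) (ps : p ∈ s) (ps' : p' ∈ s) (p1 : p ∈ π) (p2 : p ∈ ρ) (p1' : p' ∈ π)
    (p2' : p' ∈ ρ) {x : P} (hx : x ∈ π) (hx' : x ∈ ρ) : x ∈ s := by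
  by_contra hxs
  have e1 : p ≠ x := ne_of_mem ps hxs
  have e2 : p' ≠ x := ne_of_mem ps' hxs
  obtain ⟨g1, g2, g3⟩ := ln_spec (R := R) e1
  obtain ⟨k1, k2, k3⟩ := ln_spec (R := R) e2
  have go : R.Ord (R.ln p x) := ord_of hs hD ps hpD hxs g1 g2 g3
  have ko : R.Ord (R.ln p' x) := ord_of hs hD ps' hpD' hxs k1 k2 k3
  have hgk : R.ln p x ≠ R.ln p' x := by
    intro e
    have : s = R.ln p x := eq_of_two hs g1 hpp ps ps' g2 (e ▸ k2)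
    exact hxs (this ▸ g3)
  exact hne (h.eq_of h' go ko hgk (h.line go p1 hx e1 g2 g3) (h.line ko p1' hx e2 k2 k3)
    (h'.line go p2 hx' e1 g2 g3) (h'.line ko p2' hx' e2 k2 k3))

end Rect

end Pool.Agent.X65.PR
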